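import Pool.Agent.H599R3.SV.Dec
import Pool.Agent.H599R3.RH.Ar

/-!
# Finite presentability and the cup square of the crossing cocycle
-/

set_option autoImplicit false

namespace Pool.Agent.H599R3.SV

open H540DG Pool.Agent.H599R3.RH

/-- finitely presented groups -/
def FinPres (G : Type) [Group G] : Prop :=
  ∃ (n : ℕ) (φ : FreeGroup (Fin n) →* G), Function.Surjective φ ∧
    ∃ R : Set (FreeGroup (Fin n)), R.Finite ∧ Subgroup.normalClosure R = φ.ker

theorem FinPres.congr {G H : Type} [Group G] [Group H] (e : G ≃* H) (h : FinPres G) :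
    FinPres H := by
  obtain ⟨n, φ, h1, R, h2, h3⟩ := h
  refine ⟨n, (e : G →* H).comp φ, e.surjective.comp h1, R, h2, ?_⟩
  rw [h3]
  ext z
  simp [MonoidHom.mem_ker]

section

variable {G : Type} [Group G] {A : Type} {P : Pres A}

/-- functions supported on finitely many types -/
def Far (ψ : G →* U P) (F : Set (Hyp P × Hyp P)) (f : Hyp P × Hyp P →₀ ℤ) : Prop :=
  ∀ z, f z ≠ 0 → ∃ k : G, (ψ k • z.1, ψ k • z.2) ∈ F

theorem cup (ψ : G →* U P) (h : FinPres G) :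
    ∃ F : Set (Hyp P × Hyp P), F.Finite ∧ ∀ a b : G, a * b = b * a →
      ∃ η f1 f2 : Hyp P × Hyp P →₀ ℤ, Far ψ F η ∧
        (om ψ).f a b - (om ψ).f b a = η + (f1 - pa (ψ a) f1) - (f2 - pa (ψ b) f2) := by
  obtain ⟨n, φ, h1, R, h2, h3⟩ := h
  let Φ : FreeGroup (Fin n) →* Ext (om ψ) := FreeGroup.lift fun x => ⟨0, φ (FreeGroup.of x)⟩
  have hΦ : ∀ z, (Φ z).g = φ z := by
    intro z
    have : (prj (om ψ)).comp Φ = φ := by
      ext x
      simp only [Φ, MonoidHom.comp_apply, FreeGroup.lift_apply_of]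
      rfl
    exact DFunLike.congr_fun this z
  let F : Set (Hyp P × Hyp P) := ⋃ r ∈ R, ((Φ r).m.support : Set (Hyp P × Hyp P))
  have hF : F.Finite := h2.biUnion fun r _ => Finset.finite_toSet _
  refine ⟨F, hF, ?_⟩
  let N : Subgroup (FreeGroup (Fin n)) :=
    { carrier := {z | φ z = 1 ∧ Far ψ F (Φ z).m}
      one_mem' := by
        refine ⟨map_one _, ?_⟩
        intro z hz
        rw [map_one] at hz
        exact absurd rfl hz
      mul_mem' := by
        rintro x y ⟨hx1, hx2⟩ ⟨hy1, hy2⟩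
        refine ⟨by rw [map_mul, hx1, hy1, one_mul], ?_⟩
        intro z hz
        rw [map_mul, ker_mul (by rw [hΦ, hx1]), Finsupp.add_apply] at hz
        by_cases h0 : (Φ x).m z = 0
        · rw [h0, zero_add] at hz
          exact hy2 z hz
        · exact hx2 z h0
      inv_mem' := by
        rintro x ⟨hx1, hx2⟩
        refine ⟨by rw [map_inv, hx1, inv_one], ?_⟩
        intro z hz
        rw [map_inv, ker_inv (by rw [hΦ, hx1]), Finsupp.neg_apply, neg_ne_zero] at hz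
        exact hx2 z hz }
  have hN : N.Normal := by
    constructor
    rintro x ⟨hx1, hx2⟩ y
    refine ⟨by rw [map_mul, map_mul, hx1, mul_one, map_inv, mul_inv_cancel], ?_⟩
    intro z hz
    rw [map_mul, map_mul, map_inv, ker_conj (by rw [hΦ, hx1]), rho_apply, pa_apply] at hz
    obtain ⟨k, hk⟩ := hx2 _ hz
    refine ⟨k * ((Φ y).g)⁻¹, ?_⟩
    simp only [map_mul, map_inv, mul_smul]
    exact hk
  have hRN : R ⊆ N := by
    intro r hr
    refine ⟨?_, ?_⟩
    · rw [← MonoidHom.mem_ker, ← h3]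
      exact Subgroup.subset_normalClosure hr
    · intro z hz
      refine ⟨1, ?_⟩
      rw [map_one, one_smul, one_smul]
      exact Set.mem_biUnion hr (by
        rw [Finset.mem_coe, Finsupp.mem_support_iff]; exact hz)
  have hker : φ.ker ≤ N := by
    rw [← h3]
    exact Subgroup.normalClosure_le_normal hRN
  intro a b hab
  obtain ⟨za, rfl⟩ := h1 a
  obtain ⟨zb, rfl⟩ := h1 b
  have hz : za * zb * (zb * za)⁻¹ ∈ φ.ker := by
    rw [MonoidHom.mem_ker, map_mul, map_mul, map_inv, map_mul, hab]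
    group
  obtain ⟨hz1, hz2⟩ := hker hz
  refine ⟨_, (Φ zb).m, (Φ za).m, hz2, ?_⟩
  have heq : Φ (za * zb * (zb * za)⁻¹) * (Φ zb * Φ za) = Φ za * Φ zb := by
    simp only [map_mul, map_inv]; group
  have hm := congrArg Ext.m heq
  rw [ker_mul (by rw [hΦ, hz1]), mul_m, mul_m, hΦ, hΦ, rho_apply, rho_apply] at hm
  have h5 : (om ψ).f (φ za) (φ zb) = (Φ (za * zb * (zb * za)⁻¹)).m +
      ((Φ zb).m + pa (ψ (φ zb)) (Φ za).m + (om ψ).f (φ zb) (φ za)) - (Φ za).m -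
        pa (ψ (φ za)) (Φ zb).m := by
    rw [hm]; abel
  rw [h5]
  abel

theorem uu_conj (γ x : U P) (H : Hyp P) :
    uu x H = uu (γ * x * γ⁻¹) (γ • H) + uu γ ((γ * x * γ⁻¹)⁻¹ • γ • H) - uu γ (γ • H) := by
  have h1 : uu (γ * x) = uu (γ * x * γ⁻¹) + Finsupp.mapDomain ((γ * x * γ⁻¹) • ·) (uu γ) := by
    rw [← uu_mul, inv_mul_cancel_right]
  rw [uu_mul] at h1
  have h2 := DFunLike.congr_fun h1 (γ • H)
  rw [Finsupp.add_apply, Finsupp.add_apply, mapDomain_smul_apply, mapDomain_smul_apply,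
    inv_smul_smul] at h2
  linarith

/-- change of base point -/
theorem cup_base (w : List A) (h : FinPres (Dg P w)) :
    ∃ F : Set (Hyp P × Hyp P), F.Finite ∧ ∀ (γ x y : U P) (W : List A), Pi w γ W →
      Pi W x W → Pi W y W → x * y = y * x →
      ∃ η f1 f2 : Hyp P × Hyp P →₀ ℤ,
        (∀ z, η z ≠ 0 → ∃ k : Dg P w, (k.1 • γ • z.1, k.1 • γ • z.2) ∈ F) ∧
        tens (uu x) (Finsupp.mapDomain (x • ·) (uu y)) -
          tens (uu y) (Finsupp.mapDomain (y • ·) (uu x)) =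
          η + (pa x f1 - f1) + (pa y f2 - f2) := by
  obtain ⟨F, hF, h⟩ := cup (Dg P w).subtype h
  refine ⟨F, hF, ?_⟩
  intro γ x y W hγ hx hy hxy
  let a : Dg P w := ⟨γ * x * γ⁻¹, (hγ.trans hx).trans hγ.symm⟩
  let b : Dg P w := ⟨γ * y * γ⁻¹, (hγ.trans hy).trans hγ.symm⟩
  have ha : (Dg P w).subtype a = γ * x * γ⁻¹ := rfl
  have hb : (Dg P w).subtype b = γ * y * γ⁻¹ := rfl
  obtain ⟨η, g1, g2, h1, h2⟩ := h a b (by
    apply Subtype.ext
    change γ * x * γ⁻¹ * (γ * y * γ⁻¹) = γ * y * γ⁻¹ * (γ * x * γ⁻¹)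
    calc γ * x * γ⁻¹ * (γ * y * γ⁻¹) = γ * (x * y) * γ⁻¹ := by group
      _ = _ := by rw [hxy]; group)
  rw [ha, hb] at h2
  set a' := γ * x * γ⁻¹ with ha'
  set b' := γ * y * γ⁻¹ with hb'
  set v := uu γ with hv
  let F1 : Hyp P × Hyp P →₀ ℤ := -g1 + (tens v (uu b' + Finsupp.mapDomain (b' • ·) v - v) -
    tens (uu b') (Finsupp.mapDomain (b' • ·) v))
  let F2 : Hyp P × Hyp P →₀ ℤ := g2 - (tens v (uu a' + Finsupp.mapDomain (a' • ·) v - v) -
    tens (uu a') (Finsupp.mapDomain (a' • ·) v))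
  refine ⟨pa γ⁻¹ η, pa γ⁻¹ F1, pa γ⁻¹ F2, ?_, ?_⟩
  · intro z hz
    rw [pa_apply, inv_inv] at hz
    obtain ⟨k, hk⟩ := h1 _ hz
    exact ⟨k, hk⟩
  · ext z
    have e1 : ∀ Z : Hyp P, γ • x⁻¹ • Z = a'⁻¹ • γ • Z := by
      intro Z; rw [ha', smul_smul, smul_smul]; congr 1; group
    have e2 : ∀ Z : Hyp P, γ • y⁻¹ • Z = b'⁻¹ • γ • Z := by
      intro Z; rw [hb', smul_smul, smul_smul]; congr 1; group
    have hab : a' * b' = b' * a' := by
      rw [ha', hb']
      calc γ * x * γ⁻¹ * (γ * y * γ⁻¹) = γ * (x * y) * γ⁻¹ := by group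
        _ = _ := by rw [hxy]; group
    have e3 : ∀ Z : Hyp P, b'⁻¹ • a'⁻¹ • Z = a'⁻¹ • b'⁻¹ • Z := by
      intro Z; rw [smul_smul, smul_smul, ← mul_inv_rev, ← mul_inv_rev, hab]
    have hC : ∀ Z : Hyp P, uu a' Z + uu b' (a'⁻¹ • Z) = uu b' Z + uu a' (b'⁻¹ • Z) := by
      intro Z
      have h3 : uu (a' * b') Z = uu (b' * a') Z := by rw [hab]
      rw [uu_mul a' b', uu_mul b' a', Finsupp.add_apply, Finsupp.add_apply, mapDomain_smul_apply,
        mapDomain_smul_apply] at h3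
      exact h3
    have h3 := DFunLike.congr_fun h2 (γ • z.1, γ • z.2)
    have hx1 : ∀ H, uu x H = uu a' (γ • H) + v (a'⁻¹ • γ • H) - v (γ • H) := uu_conj γ x
    have hy1 : ∀ H, uu y H = uu b' (γ • H) + v (b'⁻¹ • γ • H) - v (γ • H) := uu_conj γ y
    rw [om_f, om_f, ha, hb] at h3
    simp only [Finsupp.sub_apply, Finsupp.add_apply, tens_apply, mapDomain_smul_apply, pa_apply,
      inv_inv, F1, F2, Finsupp.neg_apply] at h3 ⊢
    rw [hx1, hx1, hy1, hy1]
    simp only [e1, e2, e3] at h3 ⊢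
    have c1 := hC (γ • z.1)
    have c2 := hC (γ • z.2)
    linear_combination h3 + (v (a'⁻¹ • b'⁻¹ • γ • z.2)) * c1 - (v (γ • z.1)) * c2

end

end Pool.Agent.H599R3.SV
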