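import Pool.Agent.H599R3.RH.Hy

/-!
# Decomposition of paths, crossing numbers bounded by one
-/

set_option autoImplicit false

namespace Pool.Agent.H599R3.SV

open H540DG Pool.Agent.H599R3.RH

variable {A : Type} {P : Pres A}

theorem pi_nil {g : U P} {W : List A} (h : Pi ([] : List A) g W) : g = 1 ∧ W = [] := by
  obtain ⟨L, h1, h2⟩ := h
  cases L with
  | nil => exact ⟨h2.symm, h1.symm⟩
  | cons x L => exact absurd h1.1.symm (src_ne_nil x)

theorem pi_to_nil {g : U P} {W : List A} (h : Pi W g ([] : List A)) : g = 1 ∧ W = [] := by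
  have := pi_nil h.symm
  exact ⟨inv_eq_one.1 this.1, this.2⟩

/-- the interval of an edge in the left block -/
theorem edge_left {e : OE P} {x r : List A} (hs : e.src = x ++ r)
    (h : (e.a.length : ℚ) + e.top.length ≤ x.length) :
    ∃ e' : OE P, e = e'.w [] r ∧ e'.src = x := by
  have h2 : (e.a ++ e.top).length ≤ x.length := by
    rw [List.length_append]; exact_mod_cast h
  have h3 : x ++ r = (e.a ++ e.top) ++ e.c := by
    rw [← hs, List.append_assoc]; rfl
  obtain ⟨b, e1, e2⟩ := split_of_le h3 h2
  refine ⟨⟨e.a, e.r, e.s, b⟩, ?_, ?_⟩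
  · apply OE.ext
    · rfl
    · rfl
    · rfl
    · exact e2
  · rw [e1, List.append_assoc]; rfl

theorem edge_right {e : OE P} {x r : List A} (hs : e.src = x ++ r)
    (h : (x.length : ℚ) ≤ e.a.length) :
    ∃ e' : OE P, e = e'.w x [] ∧ e'.src = r := by
  have h2 : x.length ≤ e.a.length := by exact_mod_cast h
  have h3 : e.a ++ (e.top ++ e.c) = x ++ r := hs
  obtain ⟨b, e1, e2⟩ := split_of_le h3 h2
  refine ⟨⟨b, e.r, e.s, e.c⟩, ?_, ?_⟩
  · apply OE.ext
    · exact e1
    · rfl
    · rfl
    · change e.c = e.c ++ []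
      rw [List.append_nil]
  · rw [e2]; rfl

theorem edge_mid {e : OE P} {x y r : List A} (hs : e.src = x ++ (y ++ r))
    (h : (x.length : ℚ) ≤ e.a.length)
    (h' : (e.a.length : ℚ) + e.top.length ≤ x.length + y.length) :
    ∃ e' : OE P, e = e'.w x r ∧ e'.src = y := by
  obtain ⟨e1, h1, h2⟩ := edge_right hs h
  obtain ⟨e2, h3, h4⟩ := edge_left h2 (by
    have h5 : e.a.length = x.length + e1.a.length := by rw [h1]; simp [OE.w]
    have h6 : e.top.length = e1.top.length := by rw [h1]; rfl
    rw [h5, h6] at h'
    push_cast at h'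
    linarith)
  refine ⟨e2, ?_, h4⟩
  rw [h1, h3]
  apply OE.ext
  · simp [OE.w]
  · rfl
  · rfl
  · simp [OE.w]

theorem th_w_le (x : List A) (y : List A) (e : OE P) {t : ℚ} (h : t ≤ x.length) :
    th (e.w x y).val t = t := by
  rw [← wh_val]; exact th_wh_le _ _ _ h

theorem th_w_ge (x : List A) (y : List A) (e : OE P) {t : ℚ} (h : 0 ≤ t) :
    th (e.w x y).val (x.length + e.tgt.length + t) = x.length + e.src.length + t := by
  have h1 : Pi (x ++ e.src) (wh x [] e.val) (x ++ e.tgt) := by
    have := (Pi.oe e).wh x []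
    simpa using this
  have h2 := h1.th h
  have h3 : wh x y e.val = wh [] y (wh x [] e.val) := by rw [wh_wh]; simp
  rw [← wh_val, h3, th_wh_right]
  simp only [List.length_append] at h2
  push_cast at h2
  exact h2

/-- **Decomposition around a middle word** -/
theorem dec_m (L : List (OE P)) : ∀ (g : U P) (x m c W' : List A),
    IsPath (x ++ (m ++ c)) L W' →
    (∀ J ∈ hys g L, J.hi ≤ th g x.length ∨ th g (x.length + m.length) ≤ J.lo) →
    ∃ x' c', W' = x' ++ (m ++ c') ∧ Mv x m c (pv L) x' c' := by
  induction L with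
  | nil =>
    intro g x m c W' h _
    exact ⟨x, c, h.symm, by simpa using Mv.refl x m c⟩
  | cons e L ih =>
    intro g x m c W' h hJ
    obtain ⟨h1, h2⟩ := h
    have hJ' : ∀ J ∈ hys (g * e.val) L, J.hi ≤ th g x.length ∨ th g (x.length + m.length) ≤ J.lo :=
      fun J hJ1 => hJ J (by simp [hys, hJ1])
    have he := hJ (ohyp g e) (by simp [hys])
    rw [lo_ohyp, hi_ohyp, OrderIso.le_iff_le, OrderIso.le_iff_le] at he
    rcases he with he | he
    · obtain ⟨e', rfl, h4⟩ := edge_left h1.symm he
      rw [w_tgt, List.nil_append] at h2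
      have hth : ∀ t : ℚ, 0 ≤ t → th (g * (e'.w [] (m ++ c)).val) (e'.tgt.length + t) =
          th g (x.length + t) := by
        intro t ht
        rw [map_mul, RelIso.mul_apply]
        have := th_w_ge [] (m ++ c) e' ht
        simp only [List.length_nil, Nat.cast_zero, zero_add] at this
        rw [this, h4]
      obtain ⟨x', c', h5, h6⟩ := ih _ _ _ _ _ h2 (by
        intro J hJ1
        have h7 := hJ' J hJ1
        have h8 := hth 0 le_rfl
        rw [add_zero, add_zero] at h8
        rw [hth m.length (by positivity), h8]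
        exact h7)
      refine ⟨x', c', h5, ?_⟩
      rw [pv_cons]
      refine Mv.trans ⟨e'.val, 1, ?_, Pi.refl _, ?_⟩ h6
      · rw [← h4]; exact Pi.oe e'
      · rw [map_one, mul_one, wh_val]
    · have h3 : e.src = (x ++ m) ++ c := by rw [← h1, List.append_assoc]
      obtain ⟨e', rfl, h4⟩ := edge_right h3 (by rw [List.length_append]; push_cast; exact he)
      rw [w_tgt, List.append_nil, List.append_assoc] at h2
      have hth : ∀ t : ℚ, t ≤ x.length + m.length →
          th (g * (e'.w (x ++ m) []).val) t = th g t := by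
        intro t ht
        rw [map_mul, RelIso.mul_apply, th_w_le]
        rw [List.length_append]; push_cast; exact ht
      obtain ⟨x', c', h5, h6⟩ := ih _ _ _ _ _ h2 (by
        intro J hJ1
        have h7 := hJ' J hJ1
        rw [hth _ le_rfl, hth _ (by linarith [Nat.cast_nonneg (α := ℚ) m.length])]
        exact h7)
      refine ⟨x', c', h5, ?_⟩
      rw [pv_cons]
      refine Mv.trans ⟨1, e'.val, Pi.refl _, ?_, ?_⟩ h6
      · rw [← h4]; exact Pi.oe e'
      · rw [map_one, one_mul, wh_val]

/-- **Decomposition with two fixed words** -/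
theorem dec3 (L : List (OE P)) : ∀ (g : U P) (x u y v z W' : List A),
    IsPath (x ++ (u ++ (y ++ (v ++ z)))) L W' →
    (∀ J ∈ hys g L, J.hi ≤ th g x.length ∨ (th g (x.length + u.length) ≤ J.lo ∧
      J.hi ≤ th g (x.length + u.length + y.length)) ∨
      th g (x.length + u.length + y.length + v.length) ≤ J.lo) →
    ∃ x' y' z', W' = x' ++ (u ++ (y' ++ (v ++ z'))) ∧ (∃ β : U P, Pi y β y') ∧
      th (g * pv L) x'.length = th g x.length ∧
      th (g * pv L) (x'.length + u.length + y'.length) = th g (x.length + u.length + y.length) := by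
  induction L with
  | nil =>
    intro g x u y v z W' h _
    exact ⟨x, y, z, h.symm, ⟨1, Pi.refl y⟩, by simp, by simp⟩
  | cons e L ih =>
    intro g x u y v z W' h hJ
    obtain ⟨h1, h2⟩ := h
    have nu : (0 : ℚ) ≤ u.length := Nat.cast_nonneg _
    have ny : (0 : ℚ) ≤ y.length := Nat.cast_nonneg _
    have nv : (0 : ℚ) ≤ v.length := Nat.cast_nonneg _
    have hJ' : ∀ J ∈ hys (g * e.val) L, J.hi ≤ th g x.length ∨ (th g (x.length + u.length) ≤ J.lo ∧
      J.hi ≤ th g (x.length + u.length + y.length)) ∨
      th g (x.length + u.length + y.length + v.length) ≤ J.lo :=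
      fun J hJ1 => hJ J (by simp [hys, hJ1])
    have he := hJ (ohyp g e) (by simp [hys])
    rw [lo_ohyp, hi_ohyp, OrderIso.le_iff_le, OrderIso.le_iff_le, OrderIso.le_iff_le,
      OrderIso.le_iff_le] at he
    rcases he with he | ⟨he, he'⟩ | he
    · obtain ⟨e', rfl, h4⟩ := edge_left h1.symm he
      rw [w_tgt, List.nil_append] at h2
      have hth : ∀ t : ℚ, 0 ≤ t → th (g * (e'.w [] (u ++ (y ++ (v ++ z)))).val)
          (e'.tgt.length + t) = th g (x.length + t) := by
        intro t ht
        rw [map_mul, RelIso.mul_apply]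
        have := th_w_ge [] (u ++ (y ++ (v ++ z))) e' ht
        simp only [List.length_nil, Nat.cast_zero, zero_add] at this
        rw [this, h4]
      have a0 := hth 0 le_rfl
      rw [add_zero, add_zero] at a0
      have a1 := hth u.length nu
      have a2 := hth (u.length + y.length) (by linarith)
      have a3 := hth (u.length + y.length + v.length) (by linarith)
      simp only [← add_assoc] at a2 a3
      obtain ⟨x', y', z', h5, h6, h7, h8⟩ := ih _ _ _ _ _ _ _ h2 (by
        intro J hJ1
        have h7 := hJ' J hJ1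
        rw [a0, a1, a2, a3]
        exact h7)
      refine ⟨x', y', z', h5, h6, ?_, ?_⟩
      · rw [pv_cons, ← mul_assoc, h7, a0]
      · rw [pv_cons, ← mul_assoc, h8, a2]
    · have h3 : e.src = (x ++ u) ++ (y ++ (v ++ z)) := by rw [← h1, List.append_assoc]
      obtain ⟨e', rfl, h4⟩ := edge_mid h3 (by rw [List.length_append]; push_cast; exact he)
        (by rw [List.length_append]; push_cast; exact he')
      rw [w_tgt, List.append_assoc] at h2
      have hth : ∀ t : ℚ, t ≤ x.length + u.length →
          th (g * (e'.w (x ++ u) (v ++ z)).val) t = th g t := by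
        intro t ht
        rw [map_mul, RelIso.mul_apply, th_w_le]
        rw [List.length_append]; push_cast; exact ht
      have hth2 : ∀ t : ℚ, 0 ≤ t → th (g * (e'.w (x ++ u) (v ++ z)).val)
          (x.length + u.length + e'.tgt.length + t) = th g (x.length + u.length + y.length + t) := by
        intro t ht
        rw [map_mul, RelIso.mul_apply]
        have := th_w_ge (x ++ u) (v ++ z) e' ht
        rw [List.length_append] at this
        push_cast at this
        rw [this, h4]
      have a0 := hth x.length (by linarith)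
      have a1 := hth _ le_rfl
      have a2 := hth2 0 le_rfl
      rw [add_zero, add_zero] at a2
      have a3 := hth2 v.length nv
      obtain ⟨x', y', z', h5, ⟨β, h6⟩, h7, h8⟩ := ih _ _ _ _ _ _ _ h2 (by
        intro J hJ1
        have h7 := hJ' J hJ1
        rw [a0, a1, a2, a3]
        exact h7)
      refine ⟨x', y', z', h5, ⟨e'.val * β, ?_⟩, ?_, ?_⟩
      · rw [← h4]; exact (Pi.oe e').trans h6
      · rw [pv_cons, ← mul_assoc, h7, a0]
      · rw [pv_cons, ← mul_assoc, h8, a2]
    · have h3 : e.src = (x ++ (u ++ (y ++ v))) ++ z := by rw [← h1]; simp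
      have hl : (((x ++ (u ++ (y ++ v))).length : ℕ) : ℚ) =
          x.length + u.length + y.length + v.length := by
        simp only [List.length_append]; push_cast; ring
      obtain ⟨e', rfl, h4⟩ := edge_right h3 (by rw [hl]; exact he)
      rw [w_tgt, List.append_nil] at h2
      simp only [List.append_assoc] at h2
      have hth : ∀ t : ℚ, t ≤ x.length + u.length + y.length + v.length →
          th (g * (e'.w (x ++ (u ++ (y ++ v))) []).val) t = th g t := by
        intro t ht
        rw [map_mul, RelIso.mul_apply, th_w_le]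
        rw [hl]; exact ht
      have a0 := hth x.length (by linarith)
      have a1 := hth (x.length + u.length) (by linarith)
      have a2 := hth (x.length + u.length + y.length) (by linarith)
      have a3 := hth _ le_rfl
      obtain ⟨x', y', z', h5, h6, h7, h8⟩ := ih _ _ _ _ _ _ _ h2 (by
        intro J hJ1
        have h7 := hJ' J hJ1
        rw [a0, a1, a2, a3]
        exact h7)
      refine ⟨x', y', z', h5, h6, ?_, ?_⟩
      · rw [pv_cons, ← mul_assoc, h7, a0]
      · rw [pv_cons, ← mul_assoc, h8, a2]

/-! ### minimal paths -/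

theorem min_path {W W' : List A} {g : U P} (hg : Pi W g W') (k : U P) :
    ∃ L, IsPath W L W' ∧ pv L = g ∧ (hys k L).Nodup := by
  obtain ⟨L, h1, h2, h3⟩ := exists_min_path hg
  refine ⟨L, h1, h2, ?_⟩
  by_contra hcon
  obtain ⟨L1, x, D, y, L2, hL, hd⟩ := exists_dip L k hcon
  rw [hL] at h1
  obtain ⟨L', f1, f2, f3⟩ := shorten ((th (k * pv L1)).strictMono) h1 hd
  have := h3 L' f1 (by rw [f3, ← hL, h2])
  rw [hL] at this
  omega

theorem cr_val_one (H : Hyp P) (g : U P) (x : OE P) : |cr H (g * x.val) - cr H g| ≤ 1 := by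
  rcases x with ⟨a, r, s, c⟩
  cases s
  · have := cr_gen H (g * (gen ⟨a, r, c⟩)⁻¹) ⟨a, r, c⟩
    rw [inv_mul_cancel_right] at this
    simp only [val_f]
    rw [this]
    split_ifs <;> simp
  · have := cr_gen H g ⟨a, r, c⟩
    simp only [val_t]
    rw [this]
    split_ifs <;> simp

theorem cr_path_le (H : Hyp P) (L : List (OE P)) : ∀ g : U P, (hys g L).Nodup →
    |cr H (g * pv L) - cr H g| ≤ 1 := by
  induction L with
  | nil => intro g _; simp
  | cons x L ih =>
    intro g hn
    simp only [hys, List.nodup_cons] at hn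
    by_cases hx : ohyp g x = H
    · rw [pv_cons, ← mul_assoc, cr_not_mem H _ L (hx ▸ hn.1)]
      exact cr_val_one H g x
    · rw [pv_cons, ← mul_assoc, ← cr_val_ne H g x hx]
      exact ih _ hn.2

theorem cr_le_one (H : Hyp P) {W W' : List A} {g : U P} (hg : Pi W g W') (k : U P) :
    |cr H (k * g) - cr H k| ≤ 1 := by
  obtain ⟨L, h1, h2, h3⟩ := min_path hg k
  rw [← h2]
  exact cr_path_le H L k h3

theorem uu_le_one {W W' : List A} {g : U P} (hg : Pi W g W') (H : Hyp P) : |uu g H| ≤ 1 := by
  have := cr_le_one H hg 1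
  rw [one_mul] at this
  exact this

end Pool.Agent.H599R3.SV
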