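import Pool.Agent.H599R3.SV.Dec

/-!
# Idempotents in solvable diagram groups
-/

set_option autoImplicit false

namespace Pool.Agent.H599R3.SV

open H540DG Pool.Agent.H599R3.RH

open scoped commutatorElement

theorem thompson {G : Type} [Group G] (hs : Group.IsSolvable G) (T : G →* G) (x0 : G)
    (h : ∀ ξ, T (T ξ) = x0⁻¹ * T ξ * x0) : T (T x0) = T x0 := by
  let x : ℕ → G := fun n => (T^[n]) x0
  have hx0 : x 0 = x0 := rfl
  have hx : ∀ n, x (n + 1) = T (x n) := fun n => Function.iterate_succ_apply' _ _ _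
  have rel : ∀ i j, i < j → (x i)⁻¹ * x j * x i = x (j + 1) := by
    intro i
    induction i with
    | zero =>
      intro j hj
      obtain ⟨j, rfl⟩ : ∃ j', j = j' + 1 := ⟨j - 1, by omega⟩
      rw [hx0, hx (j + 1), hx j, h]
    | succ i ih =>
      intro j hj
      obtain ⟨j, rfl⟩ : ∃ j', j = j' + 1 := ⟨j - 1, by omega⟩
      have := congrArg T (ih j (by omega))
      rw [map_mul, map_mul, map_inv, ← hx, ← hx, ← hx] at this
      exact this
  let y : ℕ → G := fun j => (x (j + 1))⁻¹ * x j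
  have hy : ∀ j, y (j + 1) = ⁅(y (j + 2))⁻¹, y j⁆ := by
    intro j
    have r1 := rel j (j + 2) (by omega)
    have r2 := rel j (j + 1) (by omega)
    have r3 := rel (j + 1) (j + 2) (by omega)
    have s1 : x (j + 2) = x j * x (j + 3) * (x j)⁻¹ := by rw [← r1]; group
    have s2 : x j * x (j + 2) * (x j)⁻¹ = x (j + 1) := by rw [← r2]; group
    rw [commutatorElement_def, inv_inv]
    have t1 : y j * y (j + 2) * (y j)⁻¹ = (x (j + 3))⁻¹ * x (j + 1) := by
      change (x (j + 1))⁻¹ * x j * ((x (j + 3))⁻¹ * x (j + 2)) * ((x (j + 1))⁻¹ * x j)⁻¹ = _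
      calc (x (j + 1))⁻¹ * x j * ((x (j + 3))⁻¹ * x (j + 2)) * ((x (j + 1))⁻¹ * x j)⁻¹
          = (x (j + 1))⁻¹ * (x j * x (j + 3) * (x j)⁻¹)⁻¹ * (x j * x (j + 2) * (x j)⁻¹) *
            x (j + 1) := by group
        _ = (x (j + 1))⁻¹ * (x (j + 2))⁻¹ * x (j + 1) * x (j + 1) := by rw [← s1, s2]
        _ = ((x (j + 1))⁻¹ * x (j + 2) * x (j + 1))⁻¹ * x (j + 1) := by group
        _ = _ := by rw [r3]
    calc y (j + 1) = (x (j + 2))⁻¹ * x (j + 1) := rfl
      _ = (x (j + 2))⁻¹ * x (j + 3) * ((x (j + 3))⁻¹ * x (j + 1)) := by group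
      _ = (y (j + 2))⁻¹ * (y j * y (j + 2) * (y j)⁻¹) := by
          rw [t1]
          change _ = ((x (j + 3))⁻¹ * x (j + 2))⁻¹ * _
          group
      _ = _ := by group
  have hy1 : ∀ n j, y (j + 1) ∈ derivedSeries G n := by
    intro n
    induction n with
    | zero => intro j; rw [derivedSeries_zero]; exact Subgroup.mem_top _
    | succ n ih =>
      have h2 : ∀ j, y (j + 2) ∈ derivedSeries G (n + 1) := by
        intro j
        rw [derivedSeries_succ, hy (j + 1)]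
        exact Subgroup.commutator_mem_commutator (inv_mem (ih (j + 2))) (ih j)
      intro j
      cases j with
      | zero =>
        have r1 := rel 0 1 (by omega)
        have r2 := rel 0 2 (by omega)
        have e : y (0 + 1) = x 0 * y 2 * (x 0)⁻¹ := by
          have r1' : (x 0)⁻¹ * x 1 * x 0 = x 2 := r1
          have r2' : (x 0)⁻¹ * x 2 * x 0 = x 3 := r2
          calc (x 2)⁻¹ * x 1 = x 0 * (((x 0)⁻¹ * x 2 * x 0)⁻¹ * ((x 0)⁻¹ * x 1 * x 0)) *
                (x 0)⁻¹ := by group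
            _ = x 0 * ((x 3)⁻¹ * x 2) * (x 0)⁻¹ := by rw [r1', r2']
        rw [e]
        exact (inferInstance : (derivedSeries G (n + 1)).Normal).conj_mem _ (h2 0) _
      | succ j => exact h2 j
  obtain ⟨n, hn⟩ := hs.solvable
  have h1 := hy1 n 0
  rw [hn, Subgroup.mem_bot] at h1
  have h2 : (x 2)⁻¹ * x 1 = 1 := h1
  rw [inv_mul_eq_one] at h2
  rw [hx 1, hx 0, hx0] at h2
  exact h2

section

variable {A : Type} {P : Pres A}

/-- conjugated whiskering -/
def cw {w e B C : List A} {g : U P} (hg : Pi w g (B ++ (e ++ C))) : Dg P e →* Dg P w where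
  toFun ξ := ⟨g * wh B C ξ.1 * g⁻¹, (hg.trans (ξ.2.wh B C)).trans hg.symm⟩
  map_one' := by apply Subtype.ext; simp
  map_mul' a b := by
    apply Subtype.ext
    simp only [Subgroup.coe_mul, map_mul]
    group

theorem wh_inj {p p' : List A} (B C : List A) {α : U P} (hα : Pi p α p')
    (h : wh B C α = 1) : α = 1 := by
  apply wh_right_inj C hα
  have h2 : Pi (p ++ C) (wh [] C α) (p' ++ C) := by simpa using hα.wh [] C
  apply wh_left_inj B h2
  rw [wh_wh]
  simpa using h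

theorem cw_inj {w e B C : List A} {g : U P} (hg : Pi w g (B ++ (e ++ C))) :
    Function.Injective (cw hg) := by
  rw [injective_iff_map_eq_one]
  intro ξ h
  have h1 : g * wh B C ξ.1 * g⁻¹ = 1 := congrArg Subtype.val h
  have h2 : wh B C ξ.1 = 1 := by
    have : wh B C ξ.1 = g⁻¹ * (g * wh B C ξ.1 * g⁻¹) * g := by group
    rw [this, h1]; group
  exact Subtype.ext (wh_inj B C ξ.2 h2)

theorem idem (e : List A) (he : e ≠ []) (ε : U P) (hε : Pi e ε (e ++ e))
    (hs : Group.IsSolvable (Dg P e)) : False := by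
  have hR0 : Pi e ε (e ++ (e ++ [])) := by simpa using hε
  have hL0 : Pi e ε ([] ++ (e ++ e)) := by simpa using hε
  set R := cw hR0 with hR
  set L := cw hL0 with hL
  have hRi := cw_inj hR0
  have hLi := cw_inj hL0
  have h1 : Pi (e ++ e) (wh [] e ε) (e ++ (e ++ e)) := by
    have := hε.wh [] e
    simpa using this
  have h2 : Pi (e ++ e) (wh e [] ε) (e ++ (e ++ e)) := by
    have := hε.wh e []
    simpa using this
  let x0 : Dg P e := ⟨ε * wh [] e ε * (wh e [] ε)⁻¹ * ε⁻¹,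
    (((hε.trans h1).trans h2.symm).trans hε.symm)⟩
  have hRR : ∀ ξ, R (R ξ) = x0⁻¹ * R ξ * x0 := by
    intro ξ
    apply Subtype.ext
    have i1 := interchange hε ξ.2
    change ε * wh e [] (ε * wh e [] ξ.1 * ε⁻¹) * ε⁻¹ =
      (ε * wh [] e ε * (wh e [] ε)⁻¹ * ε⁻¹)⁻¹ * (ε * wh e [] ξ.1 * ε⁻¹) *
        (ε * wh [] e ε * (wh e [] ε)⁻¹ * ε⁻¹)
    calc ε * wh e [] (ε * wh e [] ξ.1 * ε⁻¹) * ε⁻¹
        = ε * wh e [] ε * wh (e ++ e) [] ξ.1 * (wh e [] ε)⁻¹ * ε⁻¹ := by
          rw [map_mul, map_mul, map_inv, wh_wh]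
          simp only [List.nil_append]
          group
      _ = ε * wh e [] ε * ((wh [] e ε)⁻¹ * (wh [] e ε * wh (e ++ e) [] ξ.1)) *
            (wh e [] ε)⁻¹ * ε⁻¹ := by group
      _ = ε * wh e [] ε * ((wh [] e ε)⁻¹ * (wh e [] ξ.1 * wh [] e ε)) *
            (wh e [] ε)⁻¹ * ε⁻¹ := by rw [i1]
      _ = _ := by group
  have hLL : ∀ ξ, L (L ξ) = (x0⁻¹)⁻¹ * L ξ * x0⁻¹ := by
    intro ξ
    apply Subtype.ext
    have i1 := interchange ξ.2 hε
    change ε * wh [] e (ε * wh [] e ξ.1 * ε⁻¹) * ε⁻¹ =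
      ((ε * wh [] e ε * (wh e [] ε)⁻¹ * ε⁻¹)⁻¹)⁻¹ * (ε * wh [] e ξ.1 * ε⁻¹) *
        (ε * wh [] e ε * (wh e [] ε)⁻¹ * ε⁻¹)⁻¹
    calc ε * wh [] e (ε * wh [] e ξ.1 * ε⁻¹) * ε⁻¹
        = ε * wh [] e ε * wh [] (e ++ e) ξ.1 * (wh [] e ε)⁻¹ * ε⁻¹ := by
          rw [map_mul, map_mul, map_inv, wh_wh]
          simp only [List.nil_append]
          group
      _ = ε * wh [] e ε * ((wh e [] ε)⁻¹ * (wh e [] ε * wh [] (e ++ e) ξ.1)) *
            (wh [] e ε)⁻¹ * ε⁻¹ := by group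
      _ = ε * wh [] e ε * ((wh e [] ε)⁻¹ * (wh [] e ξ.1 * wh e [] ε)) *
            (wh [] e ε)⁻¹ * ε⁻¹ := by rw [i1]
      _ = _ := by group
  have r1 := hRi (thompson hs R x0 hRR)
  have l1 := hLi (thompson hs L x0⁻¹ hLL)
  rw [map_inv, inv_inj] at l1
  have h3 : wh e [] x0.1 = wh [] e x0.1 := by
    have h4 := congrArg Subtype.val (r1.trans l1.symm)
    have h5 : ε * wh e [] x0.1 * ε⁻¹ = ε * wh [] e x0.1 * ε⁻¹ := h4
    exact mul_left_cancel (mul_right_cancel h5)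
  have h4 : x0.1 = 1 := by
    have hi : Pi e (x0.1)⁻¹ e := (Dg P e).inv_mem x0.2
    refine (prod_inj (α := (x0.1)⁻¹) (β := x0.1) hi x0.2 ?_).2
    rw [h3, map_inv, inv_mul_cancel]
  have h5 : wh [] e ε = wh e [] ε := by
    have h6 : ε * wh [] e ε * (wh e [] ε)⁻¹ * ε⁻¹ = 1 := h4
    have h7 : wh [] e ε * (wh e [] ε)⁻¹ = 1 := by
      have : wh [] e ε * (wh e [] ε)⁻¹ =
          ε⁻¹ * (ε * wh [] e ε * (wh e [] ε)⁻¹ * ε⁻¹) * ε := by group
      rw [this, h6]; group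
    exact mul_inv_eq_one.1 h7
  have t1 : th ε e.length = e.length := by
    have := th_wh_le e [] ε (t := e.length) le_rfl
    rw [← h5, th_wh_right] at this
    exact this
  have t2 := hε.th (t := 0) le_rfl
  rw [add_zero, add_zero] at t2
  have t3 := (th ε).injective (t2.trans t1.symm)
  simp only [List.length_append] at t3
  push_cast at t3
  have t4 : (0 : ℚ) < e.length := by exact_mod_cast List.length_pos_of_ne_nil he
  linarith

end

end Pool.Agent.H599R3.SV
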