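import Pool.Agent.H599R3.SV.Ty
import Pool.Agent.H599R3.SV.Idem
import Pool.Agent.H540R3.DG9

/-!
# Bounded decompositions bound the rank of free abelian subgroups
-/

set_option autoImplicit false

namespace Pool.Agent.H599R3.SV

open H540DG Pool.Agent.H599R3.RH

section

variable {A : Type} {P : Pres A}

/-- decompositions have bounded length -/
def DecLE (P : Pres A) (w : List A) (n : ℕ) : Prop :=
  ∀ (ps : List (List A)) (γ : U P), (∀ p ∈ ps, ¬ Tr P p) → Pi w γ ps.flatten → ps.length ≤ n

theorem dec_step {w p s : List A} {g : U P} (hg : Pi w g (p ++ s)) (hs : ¬ Tr P s) {n : ℕ}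
    (h : DecLE P w (n + 1)) : DecLE P p n := by
  intro ps γ h1 h2
  have h3 : Pi w (g * wh [] s γ) (ps ++ [s]).flatten := by
    have h4 := h2.wh [] s
    simp only [List.nil_append] at h4
    rw [List.flatten_append]
    simp only [List.flatten_cons, List.flatten_nil, List.append_nil]
    exact hg.trans h4
  have := h (ps ++ [s]) _ (by
    intro q hq
    rcases List.mem_append.1 hq with hq | hq
    · exact h1 q hq
    · rw [List.mem_singleton.1 hq]; exact hs) h3
  simp at this
  omega

theorem van_of_decLE (n : ℕ) : ∀ (w : List A), DecLE P w n → ∀ k, n ≤ k → Van (Dg P w) k := by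
  induction n with
  | zero =>
    intro w hw k _
    have : Tr P w := by
      by_contra h
      have := hw [w] 1 (by simpa using h) (by simpa using Pi.refl w)
      simp at this
    have : Subsingleton (Dg P w) := ⟨fun a b => by
      apply Subtype.ext
      rw [this _ a.2, this _ b.2]⟩
    exact van_of_subsingleton k
  | succ n ih =>
    intro w hw k hk
    by_cases ht : Tr P w
    · have : Subsingleton (Dg P w) := ⟨fun a b => by
        apply Subtype.ext
        rw [ht _ a.2, ht _ b.2]⟩
      exact van_of_subsingleton k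
    · obtain ⟨k, rfl⟩ : ∃ k', k = k' + 1 := ⟨k - 1, by omega⟩
      have : Nonempty (Cl P w (FV P)) := ⟨vtx ht 1 w (Pi.refl w)⟩
      refine van_tree (Cl P w (FV P)) (Cl P w (FE P)) (bd0 ht) (bd1 ht) (bd0_smul ht)
        (bd1_smul ht) (fun M _ F hF => tree_conn ht F hF) (fun M _ φ => tree_surj ht φ) ?_ ?_
      · intro v
        apply stab_van (F := FV P) (fun x q hQ => hQ.1)
        intro p x q g hg hQ
        exact ih p (dec_step (s := (FV P).m x ++ q) hg hQ.2 hw) _ (by omega)
      · intro e
        apply stab_van (F := FE P) (fun x q hQ => hQ.1)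
        intro p r q g hg hQ
        exact ih p (dec_step (s := r.1.1 ++ q) hg hQ.2 hw) _ (by omega)

theorem adLE_of_decLE {n : ℕ} {w : List A} (h : DecLE P w n) : AdLE (Dg P w) n := by
  rintro m ⟨f, hf⟩
  by_contra hcon
  push Not at hcon
  obtain ⟨m, rfl⟩ : ∃ m', m = m' + 1 := ⟨m - 1, by omega⟩
  obtain ⟨M, hM⟩ := exists_nontrivial_cohomology f hf
  have h1 := @van_isZero (Dg P w) _ m (van_of_decLE n w h m (by omega)) M.V M.hV1 M.hV2 M.ρ
  have h2 := ModuleCat.subsingleton_of_isZero h1
  exact not_nontrivial_iff_subsingleton.2 h2 hM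

/-- finitely presented solvable diagram groups have finite algebraic dimension -/
theorem solv_ad (w : List A) (hfp : FinPres (Dg P w)) (hs : Group.IsSolvable (Dg P w)) :
    ∃ n, AdLE (Dg P w) n := by
  obtain ⟨N, hN⟩ := bounded w hfp (by
    intro e B C ε g he hε hg
    exact idem e he ε hε (solvable_of_solvable_injective (cw_inj hg)))
  exact ⟨N, adLE_of_decLE hN⟩

end

end Pool.Agent.H599R3.SV
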