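import Pool.Agent.H599R3.SV.Orb
import Pool.Agent.H599R3.SV.Va

/-!
# Finitely presented solvable diagram groups are abelian
-/

set_option autoImplicit false

namespace Pool.Agent.H599R3.SV

open H540DG Pool.Agent.H599R3.RH

open scoped commutatorElement

theorem alt {Y : Type} (σ : Y → Y) (hσ : Function.Injective σ) (f : Y →₀ ℤ) :
    (∃ K : ℕ, K ≠ 0 ∧ Finsupp.mapDomain (σ^[K]) f = f) ∨
    ∀ (m : ℕ) (z : Fin m → ℤ), ∑ i, z i • Finsupp.mapDomain (σ^[(i : ℕ)]) f = 0 → z = 0 := by
  classical
  by_cases h : ∀ O ∈ f.support, ∃ k : ℕ, k ≠ 0 ∧ (σ^[k]) O = O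
  · left
    choose! k hk0 hk using h
    refine ⟨∏ O ∈ f.support, k O, Finset.prod_ne_zero_iff.2 hk0, ?_⟩
    conv_rhs => rw [← Finsupp.mapDomain_id (v := f)]
    apply Finsupp.mapDomain_congr
    intro O hO
    have h1 : Function.IsPeriodicPt σ (k O) O := hk O hO
    exact h1.trans_dvd (Finset.dvd_prod_of_mem k hO)
  · right
    push Not at h
    obtain ⟨O, hO, hper⟩ := h
    have hinj : Function.Injective (fun i : ℕ => (σ^[i]) O) := by
      have key : ∀ i j : ℕ, i < j → (σ^[i]) O ≠ (σ^[j]) O := by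
        intro i j hij he
        apply hper (j - i) (by omega)
        apply hσ.iterate i
        rw [← Function.iterate_add_apply]
        have : i + (j - i) = j := by omega
        rw [this, he]
      intro i j he
      by_contra hne
      rcases lt_or_gt_of_ne hne with h1 | h1
      · exact key i j h1 he
      · exact key j i h1 he.symm
    have hfin : {i : ℕ | (σ^[i]) O ∈ f.support}.Finite :=
      (Finset.finite_toSet f.support).preimage (hinj.injOn)
    have hne : hfin.toFinset.Nonempty := ⟨0, by rw [Set.Finite.mem_toFinset]; exact hO⟩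
    set i0 := hfin.toFinset.max' hne with hi0
    have hi0m := Finset.max'_mem _ hne
    rw [← hi0, Set.Finite.mem_toFinset] at hi0m
    have hi0m : (σ^[i0]) O ∈ f.support := hi0m
    set O' := (σ^[i0]) O with hO'
    have hz : ∀ i : ℕ, i ≠ 0 → f ((σ^[i]) O') = 0 := by
      intro i hi
      by_contra h1
      have h2 : i + i0 ∈ hfin.toFinset := by
        rw [Set.Finite.mem_toFinset]
        change (σ^[i + i0]) O ∈ f.support
        rw [Function.iterate_add_apply, Finsupp.mem_support_iff]
        exact h1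
      have := Finset.le_max' _ _ h2
      omega
    intro m z hsum
    by_contra hzne
    obtain ⟨j0, hj0⟩ := Function.ne_iff.1 hzne
    have hTne : (Finset.univ.filter (fun i => z i ≠ 0)).Nonempty :=
      ⟨j0, by rw [Finset.mem_filter]; exact ⟨Finset.mem_univ _, hj0⟩⟩
    set t := (Finset.univ.filter (fun i => z i ≠ 0)).max' hTne with ht
    have ht1 := Finset.max'_mem _ hTne
    rw [← ht, Finset.mem_filter] at ht1
    have ht2 : ∀ i, t < i → z i = 0 := by
      intro i hi
      by_contra h1
      have := Finset.le_max' _ i (show i ∈ Finset.univ.filter (fun i => z i ≠ 0) from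
        Finset.mem_filter.2 ⟨Finset.mem_univ i, h1⟩)
      exact absurd hi (not_lt.2 this)
    have hev := DFunLike.congr_fun hsum ((σ^[(t : ℕ)]) O')
    rw [Finsupp.finsetSum_apply, Finset.sum_eq_single t] at hev
    · rw [Finsupp.smul_apply, Finsupp.mapDomain_apply (hσ.iterate _), smul_eq_mul] at hev
      rcases mul_eq_zero.1 hev with h1 | h1
      · exact ht1.2 h1
      · exact (Finsupp.mem_support_iff.1 hi0m) h1
    · intro i _ hi
      rw [Finsupp.smul_apply, smul_eq_mul]
      rcases lt_or_gt_of_ne hi with h1 | h1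
      · have h2 : (σ^[(t : ℕ)]) O' = (σ^[(i : ℕ)]) ((σ^[(t : ℕ) - i]) O') := by
          have h4 : (i : ℕ) < t := h1
          have h3 : (t : ℕ) = i + (t - i) := by omega
          conv_lhs => rw [h3, Function.iterate_add_apply]
        rw [h2, Finsupp.mapDomain_apply (hσ.iterate _), hz, mul_zero]
        have : (i : ℕ) < t := h1
        omega
      · rw [ht2 i h1, zero_mul]
    · intro h1
      exact absurd (Finset.mem_univ t) h1

section

variable {A : Type} {P : Pres A}

theorem per {w : List A} {Γ : Subgroup (U P)} (hΓ : Ab w Γ) {g : U P} (hg : Nz w Γ g) {n : ℕ}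
    (had : AdLE (Dg P w) n) {a : U P} (ha : a ∈ Γ) :
    ∃ K : ℕ, K ≠ 0 ∧ g ^ K * a * (g ^ K)⁻¹ = a := by
  have haa : ∀ i : ℕ, g ^ i * a * (g ^ i)⁻¹ ∈ Γ := by
    intro i
    induction i with
    | zero => simpa using ha
    | succ i ih =>
      have := hg.c1 _ ih
      have e : g ^ (i + 1) * a * (g ^ (i + 1))⁻¹ = g * (g ^ i * a * (g ^ i)⁻¹) * g⁻¹ := by
        rw [pow_succ']; group
      rw [e]
      exact this
  have hcc : ∀ i : ℕ, cc Γ (g ^ i * a * (g ^ i)⁻¹) =
      Finsupp.mapDomain ((sg hg)^[i]) (cc Γ a) := by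
    intro i
    induction i with
    | zero =>
      rw [pow_zero, one_mul, inv_one, mul_one]
      exact Finsupp.mapDomain_id.symm
    | succ i ih =>
      have e : g ^ (i + 1) * a * (g ^ (i + 1))⁻¹ = g * (g ^ i * a * (g ^ i)⁻¹) * g⁻¹ := by
        rw [pow_succ']; group
      rw [e, cc_conj hg (haa i), ih, Function.iterate_succ', Finsupp.mapDomain_comp]
  rcases alt (sg hg) (sg_inj hg) (cc Γ a) with ⟨K, hK, h⟩ | h
  · refine ⟨K, hK, ?_⟩
    rw [← hcc] at h
    have h2 : cc Γ (g ^ K * a * (g ^ K)⁻¹ * a⁻¹) = 0 := by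
      have h3 := cc_zpow ha (-1)
      rw [zpow_neg_one, neg_one_smul] at h3
      rw [cc_mul (haa K), h, h3, add_neg_cancel]
    exact mul_inv_eq_one.1 (cc_inj hΓ (mul_mem (haa K) (inv_mem ha)) h2)
  · exfalso
    let _ : CommGroup Γ :=
      { (inferInstance : Group Γ) with
        mul_comm := fun x y => Subtype.ext (hΓ.comm x.1 x.2 y.1 y.2) }
    let b : Fin (n + 1) → Γ := fun i => ⟨g ^ (i : ℕ) * a * (g ^ (i : ℕ))⁻¹, haa i⟩
    let F0 : Multiplicative (Fin (n + 1) → ℤ) →* Γ :=
      { toFun := fun z => ∏ i, b i ^ ((Multiplicative.toAdd z) i)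
        map_one' := by simp
        map_mul' := fun z z' => by
          rw [← Finset.prod_mul_distrib]
          apply Finset.prod_congr rfl
          intro i _
          rw [← zpow_add]
          rfl }
    let J : Γ →* Dg P w :=
      { toFun := fun x => ⟨x.1, hΓ.le x.1 x.2⟩
        map_one' := rfl
        map_mul' := fun _ _ => rfl }
    have hJ : ∀ x, J x = 1 → x = 1 := by
      intro x hx
      have : x.1 = 1 := congrArg Subtype.val hx
      exact Subtype.ext this
    have := had (n + 1) ⟨J.comp F0, by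
      rw [injective_iff_map_eq_one]
      intro z hz
      have h1 := hJ _ hz
      have h2 : ch Γ (F0 z) = 1 := by rw [h1, map_one]
      have h3 : ch Γ (F0 z) = ∏ i, (ch Γ (b i)) ^ ((Multiplicative.toAdd z) i) := by
        change ch Γ (∏ i, b i ^ ((Multiplicative.toAdd z) i)) = _
        rw [map_prod]
        apply Finset.prod_congr rfl
        intro i _
        rw [map_zpow]
      rw [h3] at h2
      have h4 := congrArg Multiplicative.toAdd h2
      rw [toAdd_prod, toAdd_one] at h4
      have h5 := h (n + 1) (Multiplicative.toAdd z) (by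
        rw [← h4]
        apply Finset.sum_congr rfl
        intro i _
        rw [← hcc i]
        rfl)
      exact h5⟩
    omega

theorem central_aux {w : List A} {n : ℕ} (had : AdLE (Dg P w) n) (N : Subgroup (Dg P w))
    (hN : N.Normal) (hc : ∀ x ∈ N, ∀ y ∈ N, x * y = y * x) (a : Dg P w) (ha : a ∈ N)
    (g : Dg P w) : g * a = a * g := by
  set Γ := N.map (Dg P w).subtype with hΓdef
  have hΓ : Ab w Γ := by
    constructor
    · rintro _ ⟨x, hx, rfl⟩
      exact x.2
    · rintro _ ⟨x, hx, rfl⟩ _ ⟨y, hy, rfl⟩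
      exact congrArg Subtype.val (hc x hx y hy)
  have hNz : Nz w Γ g.1 := by
    refine ⟨g.2, ?_, ?_⟩
    · rintro _ ⟨x, hx, rfl⟩
      exact ⟨g * x * g⁻¹, hN.conj_mem x hx g, rfl⟩
    · rintro _ ⟨x, hx, rfl⟩
      refine ⟨g⁻¹ * x * g, ?_, rfl⟩
      have := hN.conj_mem x hx g⁻¹
      rwa [inv_inv] at this
  have haΓ : a.1 ∈ Γ := ⟨a, ha, rfl⟩
  obtain ⟨K, hK, hgK⟩ := per hΓ hNz had haΓ
  set y := g.1 ^ K with hy
  have hgy : g.1 * y = y * g.1 := by rw [hy, ← pow_succ, ← pow_succ']
  let T : Set (U P) := {x | x ∈ Γ ∧ y * x = x * y} ∪ {y}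
  have hTw : ∀ x ∈ T, Pi w x w := by
    rintro x (⟨hx, -⟩ | hx)
    · exact hΓ.le x hx
    · rw [Set.mem_singleton_iff.1 hx]
      exact (Dg P w).pow_mem (x := g.1) g.2 K
  have hTc : ∀ x ∈ T, ∀ z ∈ T, x * z = z * x := by
    rintro x (⟨hx, hx'⟩ | hx) z (⟨hz, hz'⟩ | hz)
    · exact hΓ.comm x hx z hz
    · rw [Set.mem_singleton_iff.1 hz, hx']
    · rw [Set.mem_singleton_iff.1 hx, hz']
    · rw [Set.mem_singleton_iff.1 hx, Set.mem_singleton_iff.1 hz]
  have hconj : ∀ h : U P, (∀ x ∈ T, h * x * h⁻¹ ∈ T) → ∀ x ∈ Subgroup.closure T,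
      h * x * h⁻¹ ∈ Subgroup.closure T := by
    intro h hh x hx
    induction hx using Subgroup.closure_induction with
    | mem x hx => exact Subgroup.subset_closure (hh x hx)
    | one => rw [mul_one, mul_inv_cancel]; exact one_mem _
    | mul x z _ _ ihx ihz =>
      have : h * (x * z) * h⁻¹ = (h * x * h⁻¹) * (h * z * h⁻¹) := by group
      rw [this]
      exact mul_mem ihx ihz
    | inv x _ ih =>
      have : h * x⁻¹ * h⁻¹ = (h * x * h⁻¹)⁻¹ := by group
      rw [this]
      exact inv_mem ih
  have hcomm1 : Subgroup.closure T ≤ Subgroup.centralizer T := by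
    rw [Subgroup.closure_le]
    intro x hx
    rw [SetLike.mem_coe, Subgroup.mem_centralizer_iff]
    intro z hz
    exact hTc z hz x hx
  have hcomm2 : Subgroup.closure T ≤ Subgroup.centralizer (Subgroup.closure T : Set (U P)) := by
    rw [Subgroup.closure_le]
    intro x hx
    rw [SetLike.mem_coe, Subgroup.mem_centralizer_iff]
    intro z hz
    exact ((Subgroup.mem_centralizer_iff.1 (hcomm1 hz)) x hx).symm
  have hΓ0 : Ab w (Subgroup.closure T) := by
    constructor
    · have : Subgroup.closure T ≤ Dg P w := by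
        rw [Subgroup.closure_le]
        exact hTw
      exact this
    · intro x hx z hz
      exact ((Subgroup.mem_centralizer_iff.1 (hcomm2 hx)) z hz).symm
  have hyT : y ∈ T := Or.inr rfl
  have hNz0 : Nz w (Subgroup.closure T) g.1 := by
    refine ⟨g.2, hconj g.1 ?_, ?_⟩
    · rintro x (⟨hx, hx'⟩ | hx)
      · left
        refine ⟨hNz.c1 x hx, ?_⟩
        calc y * (g.1 * x * g.1⁻¹) = (y * g.1) * x * g.1⁻¹ := by group
          _ = g.1 * (y * x) * g.1⁻¹ := by rw [← hgy]; group
          _ = g.1 * x * g.1⁻¹ * (g.1 * y) * g.1⁻¹ := by rw [hx']; group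
          _ = g.1 * x * g.1⁻¹ * y := by rw [hgy]; group
      · right
        rw [Set.mem_singleton_iff.1 hx, hgy, mul_inv_cancel_right]
        rfl
    · have := hconj g.1⁻¹ (by
        rintro x (⟨hx, hx'⟩ | hx)
        · left
          rw [inv_inv]
          refine ⟨hNz.c2 x hx, ?_⟩
          have hgy' : g.1⁻¹ * y = y * g.1⁻¹ := by
            rw [inv_mul_eq_iff_eq_mul, ← mul_assoc, hgy, mul_inv_cancel_right]
          calc y * (g.1⁻¹ * x * g.1) = (y * g.1⁻¹) * x * g.1 := by group
            _ = g.1⁻¹ * (y * x) * g.1 := by rw [← hgy']; group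
            _ = g.1⁻¹ * x * (y * g.1) := by rw [hx']; group
            _ = g.1⁻¹ * x * g.1 * y := by rw [← hgy]; group
        · right
          rw [Set.mem_singleton_iff.1 hx, inv_inv, mul_assoc, ← hgy, inv_mul_cancel_left]
          rfl)
      intro x hx
      have h1 := this x hx
      rwa [inv_inv] at h1
  have haT : a.1 ∈ T := by
    left
    refine ⟨haΓ, ?_⟩
    exact mul_inv_eq_iff_eq_mul.1 hgK
  have hfin := key hΓ0 hNz0 hK (Subgroup.subset_closure hyT) (Subgroup.subset_closure haT)
  apply Subtype.ext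
  exact mul_inv_eq_iff_eq_mul.1 hfin

theorem nm_uu_inv (g : U P) : nm (uu g⁻¹) ≤ nm (uu g) := by
  have h1 : uu g⁻¹ = -(Finsupp.mapDomain (g⁻¹ • ·) (uu g)) := by
    have h2 : uu (g⁻¹ * g) = 0 := by rw [inv_mul_cancel, uu_one]
    rw [uu_mul] at h2
    exact eq_neg_of_add_eq_zero_left h2
  rw [h1, nm_neg]
  exact nm_mapDomain _ _

theorem nm_uu_mul (g h : U P) : nm (uu (g * h)) ≤ nm (uu g) + nm (uu h) := by
  rw [uu_mul]
  refine (nm_add _ _).trans ?_
  have := nm_mapDomain (g • ·) (uu h)
  omega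

theorem nm_uu_pow (g : U P) (n : ℕ) : nm (uu (g ^ n)) ≤ n * nm (uu g) := by
  induction n with
  | zero => rw [pow_zero, uu_one, nm_zero]; exact Nat.zero_le _
  | succ n ih =>
    rw [pow_succ, Nat.succ_mul]
    exact (nm_uu_mul _ _).trans (by omega)

/-- there are no Heisenberg groups -/
theorem no_heis {w : List A} {b c z : U P} (hz : Pi w z w) (hzb : z * b = b * z)
    (hzc : z * c = c * z) (h : b * c = z * (c * b)) : z = 1 := by
  by_contra h1
  have e1 : ∀ n : ℕ, b ^ n * c = z ^ n * (c * b ^ n) := by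
    intro n
    induction n with
    | zero => simp
    | succ n ih =>
      have hzbn : Commute z b := hzb
      rw [pow_succ', mul_assoc, ih]
      calc b * (z ^ n * (c * b ^ n)) = (b * z ^ n) * (c * b ^ n) := by group
        _ = (z ^ n * b) * (c * b ^ n) := by rw [(hzbn.pow_left n).eq]
        _ = z ^ n * (b * c) * b ^ n := by group
        _ = z ^ n * (z * (c * b)) * b ^ n := by rw [h]
        _ = z ^ n * z * (c * (b * b ^ n)) := by simp only [mul_assoc]
        _ = z ^ (n + 1) * (c * (b * b ^ n)) := by rw [← pow_succ]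
  have e2 : ∀ n m : ℕ, b ^ n * c ^ m = z ^ (n * m) * (c ^ m * b ^ n) := by
    intro n m
    induction m with
    | zero => simp
    | succ m ih =>
      have hzc' : Commute z c := hzc
      rw [pow_succ, ← mul_assoc, ih]
      calc z ^ (n * m) * (c ^ m * b ^ n) * c = z ^ (n * m) * (c ^ m * (b ^ n * c)) := by group
        _ = z ^ (n * m) * (c ^ m * (z ^ n * (c * b ^ n))) := by rw [e1]
        _ = z ^ (n * m) * ((c ^ m * z ^ n) * (c * b ^ n)) := by group
        _ = z ^ (n * m) * ((z ^ n * c ^ m) * (c * b ^ n)) := by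
            rw [((hzc'.pow_left n).pow_right m).eq]
        _ = z ^ (n * m) * z ^ n * (c ^ m * c * b ^ n) := by group
        _ = z ^ (n * (m + 1)) * (c ^ m * c * b ^ n) := by rw [← pow_add, Nat.mul_succ]
  set C := nm (uu b) + nm (uu c) with hC
  set n := 2 * C + 1 with hn
  have h2 := growth hz h1 (n * n)
  have h3 : z ^ (n * n) = b ^ n * c ^ n * ((b ^ n)⁻¹ * (c ^ n)⁻¹) := by
    rw [e2 n n]; group
  rw [h3] at h2
  have u1 := nm_uu_mul (b ^ n * c ^ n) ((b ^ n)⁻¹ * (c ^ n)⁻¹)
  have u2 := nm_uu_mul (b ^ n) (c ^ n)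
  have u3 := nm_uu_mul (b ^ n)⁻¹ (c ^ n)⁻¹
  have u4 := nm_uu_inv (b ^ n)
  have u5 := nm_uu_inv (c ^ n)
  have u6 := nm_uu_pow b n
  have u7 := nm_uu_pow c n
  have u8 : n * n ≤ n * (2 * C) := by
    have : n * (2 * C) = 2 * (n * nm (uu b) + n * nm (uu c)) := by rw [hC]; ring
    omega
  have := Nat.le_of_mul_le_mul_left u8 (by omega)
  omega

/-- **Finitely presented solvable diagram groups are abelian** (for subgroups of the universal
group) -/
theorem main {w : List A} (hfp : FinPres (Dg P w)) (hs : Group.IsSolvable (Dg P w)) :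
    ∀ x y : Dg P w, x * y = y * x := by
  obtain ⟨n, had⟩ := solv_ad w hfp hs
  obtain ⟨N, hN⟩ := hs.solvable
  have step : ∀ i : ℕ, derivedSeries (Dg P w) (i + 1) ≤ Subgroup.center (Dg P w) →
      derivedSeries (Dg P w) i ≤ Subgroup.center (Dg P w) := by
    intro i hi
    have hab : ∀ x ∈ derivedSeries (Dg P w) i, ∀ y ∈ derivedSeries (Dg P w) i,
        x * y = y * x := by
      intro x hx y hy
      have h1 : ⁅x, y⁆ ∈ derivedSeries (Dg P w) (i + 1) := by
        rw [derivedSeries_succ]
        exact Subgroup.commutator_mem_commutator hx hy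
      have h2 := Subgroup.mem_center_iff.1 (hi h1)
      have h3 : (⁅x, y⁆ : Dg P w).1 = 1 := by
        apply no_heis (b := x.1) (c := y.1) (⁅x, y⁆ : Dg P w).2
        · exact congrArg Subtype.val (h2 x).symm
        · exact congrArg Subtype.val (h2 y).symm
        · have : x * y = ⁅x, y⁆ * (y * x) := by rw [commutatorElement_def]; group
          exact congrArg Subtype.val this
      have h4 : ⁅x, y⁆ = 1 := Subtype.ext h3
      exact commutatorElement_eq_one_iff_mul_comm.1 h4
    intro a ha
    rw [Subgroup.mem_center_iff]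
    intro g
    exact central_aux had (derivedSeries (Dg P w) i) inferInstance hab a ha g
  have hall : ∀ k : ℕ, derivedSeries (Dg P w) (N - k) ≤ Subgroup.center (Dg P w) := by
    intro k
    induction k with
    | zero => rw [Nat.sub_zero, hN]; exact bot_le
    | succ k ih =>
      by_cases hk : N ≤ k
      · have : N - (k + 1) = N - k := by omega
        rw [this]
        exact ih
      · have : N - k = (N - (k + 1)) + 1 := by omega
        rw [this] at ih
        exact step _ ih
  have h0 := hall N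
  rw [Nat.sub_self, derivedSeries_zero] at h0
  intro x y
  exact (Subgroup.mem_center_iff.1 (h0 (Subgroup.mem_top y))) x

end

end Pool.Agent.H599R3.SV
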