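import Pool.Agent.H599R3.SV.Rc

/-!
# Translation vectors of abelian subgroups
-/

set_option autoImplicit false

namespace Pool.Agent.H599R3.SV

open H540DG Pool.Agent.H599R3.RH

section

variable {A : Type} {P : Pres A}

open Classical in
/-- restriction of a function -/
noncomputable def fl {α : Type} (p : α → Prop) (f : α →₀ ℤ) : α →₀ ℤ := f.filter p

theorem fl_pos {α : Type} (p : α → Prop) (f : α →₀ ℤ) (a : α) (h : p a) : fl p f a = f a := by
  classical
  exact Finsupp.filter_apply_pos _ _ h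

theorem fl_neg {α : Type} (p : α → Prop) (f : α →₀ ℤ) (a : α) (h : ¬ p a) : fl p f a = 0 := by
  classical
  exact Finsupp.filter_apply_neg _ _ h

theorem fl_add {α : Type} (p : α → Prop) (f g : α →₀ ℤ) : fl p (f + g) = fl p f + fl p g := by
  ext a
  by_cases h : p a
  · rw [Finsupp.add_apply, fl_pos _ _ _ h, fl_pos _ _ _ h, fl_pos _ _ _ h, Finsupp.add_apply]
  · rw [Finsupp.add_apply, fl_neg _ _ _ h, fl_neg _ _ _ h, fl_neg _ _ _ h, add_zero]

theorem fl_zero {α : Type} (p : α → Prop) : fl p (0 : α →₀ ℤ) = 0 := by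
  ext a
  by_cases h : p a
  · rw [fl_pos _ _ _ h]
  · rw [fl_neg _ _ _ h]; rfl

theorem mapDomain_filter' {α β : Type} (q : α → β) (p : β → Prop) (f : α →₀ ℤ) :
    Finsupp.mapDomain q (fl (fun a => p (q a)) f) = fl p (Finsupp.mapDomain q f) := by
  classical
  induction f using Finsupp.induction_linear with
  | zero => rw [fl_zero, Finsupp.mapDomain_zero, fl_zero]
  | add f g hf hg =>
    rw [fl_add, Finsupp.mapDomain_add, Finsupp.mapDomain_add, fl_add, hf, hg]
  | single a z =>
    rw [Finsupp.mapDomain_single]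
    by_cases h : p (q a)
    · have e1 : fl (fun a => p (q a)) (Finsupp.single a z) = Finsupp.single a z :=
        Finsupp.filter_single_of_pos (fun a => p (q a)) h
      have e2 : fl p (Finsupp.single (q a) z) = Finsupp.single (q a) z :=
        Finsupp.filter_single_of_pos p h
      rw [e1, e2, Finsupp.mapDomain_single]
    · have e1 : fl (fun a => p (q a)) (Finsupp.single a z) = 0 :=
        Finsupp.filter_single_of_neg (fun a => p (q a)) h
      have e2 : fl p (Finsupp.single (q a) z) = 0 :=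
        Finsupp.filter_single_of_neg p h
      rw [e1, e2, Finsupp.mapDomain_zero]

theorem mapDomain_val {α β : Type} [DecidableEq β] (q : α → β) (f : α →₀ ℤ) (b : β) :
    Finsupp.mapDomain q f b = ∑ a ∈ f.support.filter (fun a => q a = b), f a := by
  unfold Finsupp.mapDomain Finsupp.sum
  rw [Finsupp.finsetSum_apply, Finset.sum_filter]
  apply Finset.sum_congr rfl
  intro a _
  rw [Finsupp.single_apply]

/-- orbits -/
abbrev Qg (Γ : Subgroup (U P)) : Type := Quotient (MulAction.orbitRel Γ (Hyp P))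

/-- the orbit -/
def qg (Γ : Subgroup (U P)) (H : Hyp P) : Qg Γ := Quotient.mk _ H

theorem qg_eq {Γ : Subgroup (U P)} {H H' : Hyp P} :
    qg Γ H = qg Γ H' ↔ ∃ l ∈ Γ, l • H' = H := by
  constructor
  · intro h
    obtain ⟨⟨l, hl⟩, h1⟩ := Quotient.exact h
    exact ⟨l, hl, h1⟩
  · rintro ⟨l, hl, h⟩
    exact Quotient.sound ⟨⟨l, hl⟩, h⟩

theorem qg_smul {Γ : Subgroup (U P)} {l : U P} (hl : l ∈ Γ) (H : Hyp P) :
    qg Γ (l • H) = qg Γ H := qg_eq.2 ⟨l, hl, rfl⟩

theorem qo_eq {x : U P} {H H' : Hyp P} :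
    qo x H = qo x H' ↔ ∃ l ∈ Subgroup.zpowers x, l • H' = H := by
  constructor
  · intro h
    obtain ⟨⟨l, hl⟩, h1⟩ := Quotient.exact h
    exact ⟨l, hl, h1⟩
  · rintro ⟨l, hl, h⟩
    exact Quotient.sound ⟨⟨l, hl⟩, h⟩

/-- translation vector -/
noncomputable def cc (Γ : Subgroup (U P)) (x : U P) : Qg Γ →₀ ℤ := Finsupp.mapDomain (qg Γ) (uu x)

theorem mapDomain_qg {Γ : Subgroup (U P)} {l : U P} (hl : l ∈ Γ) (f : Hyp P →₀ ℤ) :
    Finsupp.mapDomain (qg Γ) (Finsupp.mapDomain (l • ·) f) = Finsupp.mapDomain (qg Γ) f := by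
  rw [← Finsupp.mapDomain_comp]
  congr 1
  funext H
  exact qg_smul hl H

theorem cc_mul {Γ : Subgroup (U P)} {x : U P} (hx : x ∈ Γ) (y : U P) :
    cc Γ (x * y) = cc Γ x + cc Γ y := by
  unfold cc
  rw [uu_mul, Finsupp.mapDomain_add, mapDomain_qg hx]

theorem cc_one (Γ : Subgroup (U P)) : cc Γ 1 = 0 := by
  unfold cc; rw [uu_one, Finsupp.mapDomain_zero]

/-- as a homomorphism -/
noncomputable def ch (Γ : Subgroup (U P)) : Γ →* Multiplicative (Qg Γ →₀ ℤ) where
  toFun x := Multiplicative.ofAdd (cc Γ x.1)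
  map_one' := by rw [Subgroup.coe_one, cc_one]; rfl
  map_mul' x y := by rw [Subgroup.coe_mul, cc_mul x.2]; rfl

theorem cc_zpow {Γ : Subgroup (U P)} {x : U P} (hx : x ∈ Γ) (n : ℤ) :
    cc Γ (x ^ n) = n • cc Γ x := by
  have := map_zpow (ch Γ) ⟨x, hx⟩ n
  exact congrArg Multiplicative.toAdd this

theorem cc_pow {Γ : Subgroup (U P)} {x : U P} (hx : x ∈ Γ) (n : ℕ) :
    cc Γ (x ^ n) = (n : ℤ) • cc Γ x := by
  rw [← cc_zpow hx, zpow_natCast]

theorem os_inv {b l : U P} (h : l * b = b * l) (H : Hyp P) :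
    os b (qo b (l • H)) = os b (qo b H) := by
  have hz : ∀ z ∈ Subgroup.zpowers b, l * z = z * l := by
    rintro _ ⟨i, rfl⟩
    exact ((show Commute l b from h).zpow_right i)
  let lb : Qo b → Qo b := Quotient.map (l • ·) (by
    intro H1 H2 h12
    obtain ⟨⟨z, hzz⟩, h1⟩ := h12
    have h1 : z • H2 = H1 := h1
    refine ⟨⟨z, hzz⟩, ?_⟩
    change z • l • H2 = l • H1
    rw [← h1, smul_smul, smul_smul, hz z hzz])
  have hlb : ∀ H, lb (qo b H) = qo b (l • H) := fun H => rfl
  have hinj : Function.Injective lb := by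
    intro O1 O2 h12
    induction O1 using Quotient.inductionOn with
    | h H1 =>
      induction O2 using Quotient.inductionOn with
      | h H2 =>
        change qo b (l • H1) = qo b (l • H2) at h12
        change qo b H1 = qo b H2
        rw [qo_eq] at h12 ⊢
        obtain ⟨z, hzz, h1⟩ := h12
        refine ⟨z, hzz, ?_⟩
        rw [smul_smul, ← hz z hzz, ← smul_smul] at h1
        exact smul_left_cancel l h1
  have e1 : uu b + Finsupp.mapDomain (b • ·) (uu l) =
      uu l + Finsupp.mapDomain (l • ·) (uu b) := by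
    rw [← uu_mul, ← uu_mul, h]
  have e2 : os b = Finsupp.mapDomain lb (os b) := by
    have h1 := congrArg (Finsupp.mapDomain (qo b)) e1
    rw [Finsupp.mapDomain_add, Finsupp.mapDomain_add, ← Finsupp.mapDomain_comp,
      ← Finsupp.mapDomain_comp] at h1
    have h2 : (qo b) ∘ (fun H => b • H) = qo b := by
      funext H; exact qo_smul b H
    have h3 : (qo b) ∘ (fun H => l • H) = lb ∘ qo b := rfl
    rw [h2, h3, Finsupp.mapDomain_comp] at h1
    unfold os
    have h4 : Finsupp.mapDomain (qo b) (uu b) + Finsupp.mapDomain (qo b) (uu l) =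
        Finsupp.mapDomain lb (Finsupp.mapDomain (qo b) (uu b)) +
        Finsupp.mapDomain (qo b) (uu l) := by rw [h1]; abel
    exact add_right_cancel h4
  rw [← hlb]
  conv_lhs => rw [e2]
  rw [Finsupp.mapDomain_apply hinj]

/-- abelian subgroups of diagram groups -/
structure Ab (w : List A) (Γ : Subgroup (U P)) : Prop where
  le : ∀ x ∈ Γ, Pi w x w
  comm : ∀ x ∈ Γ, ∀ y ∈ Γ, x * y = y * x

/-- projection of orbits -/
def pj {Γ : Subgroup (U P)} {x : U P} (hx : x ∈ Γ) : Qo x → Qg Γ :=
  Quotient.map id (by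
    intro H1 H2 h
    obtain ⟨⟨z, hz⟩, h1⟩ := h
    exact ⟨⟨z, (Subgroup.zpowers_le.2 hx) hz⟩, h1⟩)

theorem cc_eq {Γ : Subgroup (U P)} {x : U P} (hx : x ∈ Γ) :
    cc Γ x = Finsupp.mapDomain (pj hx) (os x) := by
  unfold cc os
  rw [← Finsupp.mapDomain_comp]
  rfl

theorem cc_iff {w : List A} {Γ : Subgroup (U P)} (hΓ : Ab w Γ) {x : U P} (hx : x ∈ Γ)
    (H : Hyp P) : cc Γ x (qg Γ H) ≠ 0 ↔ os x (qo x H) ≠ 0 := by
  classical
  rw [cc_eq hx, mapDomain_val]
  have h1 : ∀ O ∈ (os x).support.filter (fun O => pj hx O = qg Γ H),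
      os x O = os x (qo x H) := by
    intro O hO
    rw [Finset.mem_filter] at hO
    induction O using Quotient.inductionOn with
    | h H' =>
      have h2 : qg Γ H' = qg Γ H := hO.2
      obtain ⟨l, hl, rfl⟩ := qg_eq.1 h2
      exact os_inv (hΓ.comm l hl x hx) H
  rw [Finset.sum_congr rfl h1, Finset.sum_const, nsmul_eq_mul]
  constructor
  · intro h2
    exact right_ne_zero_of_mul h2
  · intro h2
    refine mul_ne_zero ?_ h2
    have h3 : qo x H ∈ (os x).support.filter (fun O => pj hx O = qg Γ H) := by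
      rw [Finset.mem_filter, Finsupp.mem_support_iff]
      exact ⟨h2, rfl⟩
    have h4 := Finset.card_pos.2 ⟨_, h3⟩
    exact_mod_cast h4.ne'

theorem cc_inj {w : List A} {Γ : Subgroup (U P)} (hΓ : Ab w Γ) {x : U P} (hx : x ∈ Γ)
    (h : cc Γ x = 0) : x = 1 := by
  by_contra h1
  obtain ⟨H, h2, -⟩ := exists_os (hΓ.le x hx) h1
  have := (cc_iff hΓ hx H).2 h2
  rw [h] at this
  exact this rfl

/-- normalising elements -/
structure Nz (w : List A) (Γ : Subgroup (U P)) (g : U P) : Prop where
  mem : Pi w g w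
  c1 : ∀ x ∈ Γ, g * x * g⁻¹ ∈ Γ
  c2 : ∀ x ∈ Γ, g⁻¹ * x * g ∈ Γ

/-- the induced map on orbits -/
def sg {w : List A} {Γ : Subgroup (U P)} {g : U P} (hg : Nz w Γ g) : Qg Γ → Qg Γ :=
  Quotient.map (g • ·) (by
    intro H1 H2 h
    obtain ⟨⟨z, hz⟩, h1⟩ := h
    have h1 : z • H2 = H1 := h1
    refine ⟨⟨g * z * g⁻¹, hg.c1 z hz⟩, ?_⟩
    change (g * z * g⁻¹) • g • H2 = g • H1
    rw [← h1, smul_smul, smul_smul]
    congr 1
    group)

theorem sg_qg {w : List A} {Γ : Subgroup (U P)} {g : U P} (hg : Nz w Γ g) (H : Hyp P) :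
    sg hg (qg Γ H) = qg Γ (g • H) := rfl

theorem sg_inj {w : List A} {Γ : Subgroup (U P)} {g : U P} (hg : Nz w Γ g) :
    Function.Injective (sg hg) := by
  intro O1 O2 h12
  induction O1 using Quotient.inductionOn with
  | h H1 =>
    induction O2 using Quotient.inductionOn with
    | h H2 =>
      change qg Γ (g • H1) = qg Γ (g • H2) at h12
      change qg Γ H1 = qg Γ H2
      rw [qg_eq] at h12 ⊢
      obtain ⟨z, hz, h1⟩ := h12
      refine ⟨g⁻¹ * z * g, hg.c2 z hz, ?_⟩
      rw [mul_smul, mul_smul, h1, inv_smul_smul]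

theorem cc_conj {w : List A} {Γ : Subgroup (U P)} {g : U P} (hg : Nz w Γ g) {x : U P}
    (hx : x ∈ Γ) : cc Γ (g * x * g⁻¹) = Finsupp.mapDomain (sg hg) (cc Γ x) := by
  have e1 : uu (g * x * g⁻¹) + Finsupp.mapDomain ((g * x * g⁻¹) • ·) (uu g) =
      uu g + Finsupp.mapDomain (g • ·) (uu x) := by
    rw [← uu_mul, ← uu_mul, inv_mul_cancel_right]
  have h1 := congrArg (Finsupp.mapDomain (qg Γ)) e1
  rw [Finsupp.mapDomain_add, Finsupp.mapDomain_add, mapDomain_qg (hg.c1 x hx),
    ← Finsupp.mapDomain_comp (f := fun H : Hyp P => g • H)] at h1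
  have h3 : (qg Γ) ∘ (fun H => g • H) = sg hg ∘ qg Γ := rfl
  rw [h3, Finsupp.mapDomain_comp] at h1
  unfold cc
  have h4 : Finsupp.mapDomain (qg Γ) (uu (g * x * g⁻¹)) + Finsupp.mapDomain (qg Γ) (uu g) =
      Finsupp.mapDomain (sg hg) (Finsupp.mapDomain (qg Γ) (uu x)) +
      Finsupp.mapDomain (qg Γ) (uu g) := by rw [h1]; abel
  exact add_right_cancel h4

theorem cc_conj_apply {w : List A} {Γ : Subgroup (U P)} {g : U P} (hg : Nz w Γ g) {x : U P}
    (hx : x ∈ Γ) (H : Hyp P) : cc Γ (g * x * g⁻¹) (qg Γ (g • H)) = cc Γ x (qg Γ H) := by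
  rw [cc_conj hg hx, ← sg_qg hg, Finsupp.mapDomain_apply (sg_inj hg)]

/-- elements with zero translation have a power in the stabilizer -/
theorem fix_pow {w : List A} {Γ : Subgroup (U P)} (hΓ : Ab w Γ) {x b : U P} (hx : x ∈ Γ)
    (hb : b ∈ Γ) (H : Hyp P) (h1 : cc Γ x (qg Γ H) = 0) (h2 : cc Γ b (qg Γ H) ≠ 0) :
    ∃ i : ℕ, i ≠ 0 ∧ x ^ i • H = H := by
  classical
  by_contra hcon
  push Not at hcon
  have hxb : x * b = b * x := hΓ.comm x hx b hb
  let O : Qg Γ → Prop := fun o => o = qg Γ H
  let fO : Hyp P →₀ ℤ := fl (fun H' => O (qg Γ H')) (uu x)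
  have hf0 : Finsupp.mapDomain (qo x) fO = 0 := by
    have e1 : fO = fl (fun H' => O (pj hx (qo x H'))) (uu x) := rfl
    rw [e1, mapDomain_filter' (qo x) (fun o => O (pj hx o)) (uu x)]
    ext o
    by_cases ho : O (pj hx o)
    · rw [fl_pos (fun o => O (pj hx o)) _ o ho]
      induction o using Quotient.inductionOn with
      | h H' =>
        have h3 : qg Γ H' = qg Γ H := ho
        by_contra h4
        have h5 := (cc_iff hΓ hx H').2 h4
        rw [h3] at h5
        exact h5 h1
    · rw [fl_neg (fun o => O (pj hx o)) _ o ho]; rfl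
  obtain ⟨v, hv⟩ := coinv x fO hf0
  have hxO : ∀ H', O (qg Γ H') → uu x H' = v (x⁻¹ • H') - v H' := by
    intro H' hH'
    have := DFunLike.congr_fun hv H'
    rw [Finsupp.sub_apply, mapDomain_smul_apply] at this
    rw [← this]
    exact (fl_pos (fun H' => O (qg Γ H')) (uu x) H' hH').symm
  let F : Hyp P →₀ ℤ := uu b - (Finsupp.mapDomain (b • ·) v - v)
  have hFa : ∀ H', F H' = uu b H' - (v (b⁻¹ • H') - v H') := by
    intro H'
    simp only [F, Finsupp.sub_apply, mapDomain_smul_apply]
  have hFinv : ∀ H', O (qg Γ H') → F (x⁻¹ • H') = F H' := by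
    intro H' hH'
    have e1 : uu (b * x) H' = uu (x * b) H' := by rw [hxb]
    rw [uu_mul b x, uu_mul x b, Finsupp.add_apply, Finsupp.add_apply, mapDomain_smul_apply,
      mapDomain_smul_apply] at e1
    have hb' : O (qg Γ (b⁻¹ • H')) := by
      change qg Γ (b⁻¹ • H') = _
      rw [qg_smul (inv_mem hb)]
      exact hH'
    have e2 := hxO H' hH'
    have e3 := hxO _ hb'
    have e4 : x⁻¹ • b⁻¹ • H' = b⁻¹ • x⁻¹ • H' := by
      rw [smul_smul, smul_smul, ← mul_inv_rev, ← mul_inv_rev, hxb]
    rw [e4] at e3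
    rw [hFa, hFa]
    linarith
  have hF0 : ∀ H', O (qg Γ H') → F H' = 0 := by
    intro H' hH'
    by_contra h3
    obtain ⟨k, hk0, hk⟩ := pow_fix x⁻¹ H' {J | J ∈ F.support}
      (Finset.finite_toSet F.support) (by
      intro i
      have : O (qg Γ ((x⁻¹) ^ i • H')) := by
        change qg Γ ((x⁻¹) ^ i • H') = _
        rw [qg_smul (pow_mem (inv_mem hx) i)]
        exact hH'
      have key : ∀ i : ℕ, F ((x⁻¹) ^ i • H') = F H' := by
        intro i
        induction i with
        | zero => rw [pow_zero, one_smul]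
        | succ i ih =>
          rw [pow_succ', mul_smul, hFinv _ (by
            change qg Γ ((x⁻¹) ^ i • H') = _
            rw [qg_smul (pow_mem (inv_mem hx) i)]
            exact hH'), ih]
      change (x⁻¹) ^ i • H' ∈ F.support
      rw [Finsupp.mem_support_iff, key]
      exact h3)
    obtain ⟨l, hl, rfl⟩ := qg_eq.1 (show qg Γ H' = qg Γ H from hH')
    apply hcon k hk0
    have h4 : x ^ k • l • H = l • H := by
      conv_lhs => rw [← hk]
      rw [smul_smul, inv_pow, mul_inv_cancel, one_smul]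
    have h5 : x ^ k * l = l * x ^ k := hΓ.comm _ (pow_mem hx k) _ hl
    rw [smul_smul, h5, mul_smul] at h4
    exact smul_left_cancel l h4
  apply h2
  set p : Hyp P → Prop := fun H' => O (qg Γ H') with hp
  have h3 : fl p (uu b) = Finsupp.mapDomain (b • ·) (fl p v) - fl p v := by
    ext H'
    rw [Finsupp.sub_apply, mapDomain_smul_apply]
    have hiff : qg Γ (b⁻¹ • H') = qg Γ H' := qg_smul (inv_mem hb) H'
    by_cases hO : O (qg Γ H')
    · have hO' : O (qg Γ (b⁻¹ • H')) := by rw [hiff]; exact hO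
      rw [fl_pos p _ _ hO, fl_pos p _ _ hO, fl_pos p _ _ hO']
      have := hF0 H' hO
      rw [hFa] at this
      linarith
    · have hO' : ¬ O (qg Γ (b⁻¹ • H')) := by rw [hiff]; exact hO
      rw [fl_neg p _ _ hO, fl_neg p _ _ hO, fl_neg p _ _ hO', sub_zero]
  have h4 := congrArg (Finsupp.mapDomain (qg Γ)) h3
  rw [hp, mapDomain_filter' (qg Γ) O (uu b)] at h4
  rw [← hp] at h4
  have h5 : Finsupp.mapDomain (qg Γ) (Finsupp.mapDomain (b • ·) (fl p v) - fl p v) =
      Finsupp.mapDomain (qg Γ) (Finsupp.mapDomain (b • ·) (fl p v)) -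
      Finsupp.mapDomain (qg Γ) (fl p v) :=
    map_sub (Finsupp.mapDomain.addMonoidHom (qg Γ)) _ _
  rw [h5, mapDomain_qg hb, sub_self] at h4
  have h6 := DFunLike.congr_fun h4 (qg Γ H)
  rw [fl_pos O _ _ (show O (qg Γ H) from rfl)] at h6
  exact h6

/-- disjointness -/
theorem disj {w : List A} {x : U P} {H J : Hyp P} (hH : Vz w H) (hx : x • H = H)
    (h : os x (qo x J) ≠ 0) : J.hi ≤ H.lo ∨ H.hi ≤ J.lo := by
  classical
  obtain ⟨γ, y, h1, rfl⟩ := hH
  have hmv := mv_of_fix hx
  have e1 : Finsupp.mapDomain (qo x) (uu (x * γ) - uu γ) = os x := by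
    have e2 : Finsupp.mapDomain (qo x) (uu (x * γ) - uu γ) =
        Finsupp.mapDomain (qo x) (uu (x * γ)) - Finsupp.mapDomain (qo x) (uu γ) :=
      map_sub (Finsupp.mapDomain.addMonoidHom (qo x)) _ _
    have e3 : (qo x) ∘ (fun H => x • H) = qo x := by
      funext H; exact qo_smul x H
    rw [e2, uu_mul, Finsupp.mapDomain_add, ← Finsupp.mapDomain_comp, e3]
    unfold os
    abel
  rw [← e1] at h
  have h2 := Finsupp.mapDomain_support (Finsupp.mem_support_iff.2 h)
  rw [Finset.mem_image] at h2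
  obtain ⟨J', h3, h4⟩ := h2
  rw [Finsupp.mem_support_iff, Finsupp.sub_apply, uu_apply, uu_apply] at h3
  have h5 : cr J' (γ * (γ⁻¹ * x * γ)) ≠ cr J' γ := by
    have : γ * (γ⁻¹ * x * γ) = x * γ := by group
    rw [this]
    intro h6
    apply h3
    rw [h6]
    ring
  have h6 := cross_Mv J' hmv γ h5
  rw [← lo_ohyp, ← hi_ohyp] at h6
  obtain ⟨ζ, hζ, h7⟩ := qo_eq.1 h4
  have hfix : ζ • ohyp γ y = ohyp γ y := by
    have : x ∈ MulAction.stabilizer (U P) (ohyp γ y) := hx
    exact (Subgroup.zpowers_le.2 this) hζ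
  rw [← h7] at h6
  have l1 := lo_smul ζ (ohyp γ y)
  have l2 := hi_smul ζ (ohyp γ y)
  rw [hfix] at l1 l2
  rw [hi_smul, lo_smul, l1, l2, OrderIso.le_iff_le, OrderIso.le_iff_le] at h6
  exact h6

/-- **Key step**: an element with a power in an abelian subgroup which it normalises
centralises it. -/
theorem key {w : List A} {Γ : Subgroup (U P)} (hΓ : Ab w Γ) {g : U P} (hg : Nz w Γ g) {K : ℕ}
    (hK : K ≠ 0) (hgK : g ^ K ∈ Γ) {a : U P} (ha : a ∈ Γ) : g * a * g⁻¹ = a := by
  have main : ∀ H : Hyp P, cc Γ a (qg Γ (g • H)) = cc Γ a (qg Γ H) := by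
    intro H
    by_cases h0 : ∀ x ∈ Γ, cc Γ x (qg Γ H) = 0
    · have h1 := cc_conj_apply hg (hg.c2 a ha) H
      have h2 : g * (g⁻¹ * a * g) * g⁻¹ = a := by group
      rw [h2] at h1
      rw [h1, h0 _ (hg.c2 a ha), h0 a ha]
    · push Not at h0
      obtain ⟨x0, hx0, h0⟩ := h0
      -- visibility
      have hV : Vz w H := by
        classical
        have h1 := Finsupp.mapDomain_support (Finsupp.mem_support_iff.2 h0)
        rw [Finset.mem_image] at h1
        obtain ⟨H', h2, h3⟩ := h1
        obtain ⟨l, hl, h4⟩ := qg_eq.1 h3.symm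
        rw [← h4]
        exact vz_smul (hΓ.le l hl) (vz_of_uu (hΓ.le x0 hx0) (Finsupp.mem_support_iff.1 h2))
      by_cases hA : cc Γ (g ^ K) (qg Γ H) = 0
      · obtain ⟨i, hi, h1⟩ := fix_pow hΓ hgK hx0 H hA h0
        rw [← pow_mul] at h1
        rw [rc hg.mem hV (Nat.mul_ne_zero hK hi) h1]
      · by_contra hne
        set y := g ^ K with hy
        set d := cc Γ y (qg Γ H) with hd
        have hgyg : g * y * g⁻¹ = y := by
          rw [hy, mul_inv_eq_iff_eq_mul, ← pow_succ', ← pow_succ]
        have hd' : cc Γ y (qg Γ (g • H)) = d := by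
          have := cc_conj_apply hg hgK H
          rw [hgyg] at this
          exact this
        set p := cc Γ a (qg Γ H) with hp
        have hx1Γ : a ^ d * y ^ (-p) ∈ Γ := mul_mem (zpow_mem ha _) (zpow_mem hgK _)
        have hx1H : cc Γ (a ^ d * y ^ (-p)) (qg Γ H) = 0 := by
          rw [cc_mul (zpow_mem ha _), cc_zpow ha, cc_zpow hgK, Finsupp.add_apply,
            Finsupp.smul_apply, Finsupp.smul_apply, ← hp, ← hd, smul_eq_mul, smul_eq_mul]
          ring
        have hx1g : cc Γ (a ^ d * y ^ (-p)) (qg Γ (g • H)) ≠ 0 := by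
          rw [cc_mul (zpow_mem ha _), cc_zpow ha, cc_zpow hgK, Finsupp.add_apply,
            Finsupp.smul_apply, Finsupp.smul_apply, hd', smul_eq_mul, smul_eq_mul]
          intro h
          apply hne
          have : d * (cc Γ a (qg Γ (g • H)) - p) = 0 := by linarith
          rcases mul_eq_zero.1 this with h1 | h1
          · exact absurd h1 hA
          · linarith
        obtain ⟨i0, hi0, hfix0⟩ := fix_pow hΓ hx1Γ hgK H hx1H hA
        -- an element fixing `H` with positive translation on `gH`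
        obtain ⟨x, hxΓ, hxH, hxe⟩ : ∃ x ∈ Γ, x • H = H ∧ 0 < cc Γ x (qg Γ (g • H)) := by
          set x1 := (a ^ d * y ^ (-p)) ^ i0 with hx1
          have e1 : cc Γ x1 (qg Γ (g • H)) ≠ 0 := by
            rw [hx1, cc_pow hx1Γ, Finsupp.smul_apply, smul_eq_mul]
            exact mul_ne_zero (by exact_mod_cast hi0) hx1g
          have e2 : x1 ∈ Γ := pow_mem hx1Γ i0
          rcases lt_or_gt_of_ne e1 with e3 | e3
          · refine ⟨x1⁻¹, inv_mem e2, ?_, ?_⟩
            · conv_lhs => rw [← hfix0]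
              rw [inv_smul_smul]
            · have := cc_zpow e2 (-1)
              rw [zpow_neg_one] at this
              rw [this, Finsupp.smul_apply, smul_eq_mul]
              linarith
          · exact ⟨x1, e2, hfix0, e3⟩
        set e := cc Γ x (qg Γ (g • H)) with he
        obtain ⟨E, hE⟩ := Int.eq_ofNat_of_zero_le hxe.le
        have hE0 : E ≠ 0 := by
          rintro rfl
          rw [hE] at hxe
          simp at hxe
        have hK2 : 2 ≤ K := by
          by_contra hK2
          have hK1 : K = 1 := by omega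
          apply hne
          rw [hK1, pow_one] at hy
          rw [hy] at hgK
          rw [hp, qg_smul hgK]
        have hdis := disj hV hxH ((cc_iff hΓ hxΓ (g • H)).1 (by rw [← he]; exact hxe.ne'))
        -- the element fixing `gH`
        have hzΓ : y ^ E * x ^ (-d) ∈ Γ := mul_mem (pow_mem hgK _) (zpow_mem hxΓ _)
        have hz0 : cc Γ (y ^ E * x ^ (-d)) (qg Γ (g • H)) = 0 := by
          rw [cc_mul (pow_mem hgK _), cc_pow hgK, cc_zpow hxΓ, Finsupp.add_apply,
            Finsupp.smul_apply, Finsupp.smul_apply, hd', ← he, smul_eq_mul, smul_eq_mul, hE]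
          push_cast
          ring
        obtain ⟨i, hi, hzfix⟩ := fix_pow hΓ hzΓ hgK (g • H) hz0 (by rw [hd']; exact hA)
        -- the common translate
        have hcomm : Commute (y ^ E) (x ^ (-d)) := hΓ.comm _ (pow_mem hgK _) _ (zpow_mem hxΓ _)
        rw [hcomm.mul_pow, ← pow_mul] at hzfix
        set X := ((x ^ (-d)) ^ i)⁻¹ with hX
        have hXΓ : X ∈ Γ := inv_mem (pow_mem (zpow_mem hxΓ _) _)
        have hyX : y ^ (E * i) • g • H = X • g • H := by
          have hc2 : (y ^ (E * i)) * (x ^ (-d)) ^ i = (x ^ (-d)) ^ i * y ^ (E * i) :=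
            hΓ.comm _ (pow_mem hgK _) _ (pow_mem (zpow_mem hxΓ _) _)
          rw [hc2, mul_smul] at hzfix
          rw [hX]
          conv_rhs => rw [← hzfix]
          rw [inv_smul_smul]
        have hxstab : x ∈ MulAction.stabilizer (U P) H := hxH
        have hXH : X • H = H :=
          inv_mem (pow_mem (zpow_mem hxstab (-d)) i)
        have hXK : X • g ^ K • H = g ^ K • H := by
          rw [smul_smul, hΓ.comm X hXΓ _ hgK, mul_smul, hXH]
        have hcomp : X • g • H = g ^ (K * (E * i) + 1) • H := by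
          rw [← hyX, hy, ← pow_mul, smul_smul, ← pow_succ]
        have hbig : K < K * (E * i) + 1 := by
          have : 1 ≤ E * i := Nat.one_le_iff_ne_zero.2 (Nat.mul_ne_zero hE0 hi)
          nlinarith
        have hlo : ∀ j : ℕ, (g ^ (j + 1) • H).lo = th (g ^ j) (g • H).lo := by
          intro j; rw [pow_succ, mul_smul, lo_smul]
        have hhi : ∀ j : ℕ, (g ^ (j + 1) • H).hi = th (g ^ j) (g • H).hi := by
          intro j; rw [pow_succ, mul_smul, hi_smul]
        rcases hdis with hdis | hdis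
        · -- decreasing
          have hs : ∀ j : ℕ, (g ^ (j + 1) • H).hi ≤ (g ^ j • H).lo := by
            intro j
            rw [hhi, lo_smul]
            exact (th (g ^ j)).le_iff_le.2 hdis
          have hmono : ∀ j k : ℕ, (g ^ (j + k) • H).lo ≤ (g ^ j • H).lo := by
            intro j k
            induction k with
            | zero => exact le_rfl
            | succ k ih =>
              have h1 := hs (j + k)
              have h2 := (g ^ (j + k + 1) • H).lt
              rw [← add_assoc]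
              linarith
          have h1 : (g ^ K • H).hi ≤ (g • H).lo := by
            have h2 := hs (K - 1)
            rw [Nat.sub_add_cancel (by omega)] at h2
            have h3 := hmono 1 (K - 2)
            have e5 : 1 + (K - 2) = K - 1 := by omega
            rw [e5, pow_one] at h3
            exact h2.trans h3
          have h2 : (g ^ K • H).hi ≤ (X • g • H).lo := by
            have h3 := hi_smul X (g ^ K • H)
            rw [hXK] at h3
            rw [h3, lo_smul]
            exact (th X).le_iff_le.2 h1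
          rw [hcomp] at h2
          have h3 := hmono K (K * (E * i) + 1 - K)
          have e5 : K + (K * (E * i) + 1 - K) = K * (E * i) + 1 := by omega
          rw [e5] at h3
          have h4 := (g ^ K • H).lt
          linarith
        · -- increasing
          have hs : ∀ j : ℕ, (g ^ j • H).hi ≤ (g ^ (j + 1) • H).lo := by
            intro j
            rw [hlo, hi_smul]
            exact (th (g ^ j)).le_iff_le.2 hdis
          have hmono : ∀ j k : ℕ, (g ^ j • H).hi ≤ (g ^ (j + k) • H).hi := by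
            intro j k
            induction k with
            | zero => exact le_rfl
            | succ k ih =>
              have h1 := hs (j + k)
              have h2 := (g ^ (j + k + 1) • H).lt
              rw [← add_assoc]
              linarith
          have h1 : (g • H).hi ≤ (g ^ K • H).lo := by
            have h2 := hs (K - 1)
            rw [Nat.sub_add_cancel (by omega)] at h2
            have h3 := hmono 1 (K - 2)
            have e5 : 1 + (K - 2) = K - 1 := by omega
            rw [e5, pow_one] at h3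
            exact h3.trans h2
          have h2 : (X • g • H).hi ≤ (g ^ K • H).lo := by
            have h3 := lo_smul X (g ^ K • H)
            rw [hXK] at h3
            rw [h3, hi_smul]
            exact (th X).le_iff_le.2 h1
          rw [hcomp] at h2
          have h3 := hmono K (K * (E * i) + 1 - K)
          have e5 : K + (K * (E * i) + 1 - K) = K * (E * i) + 1 := by omega
          rw [e5] at h3
          have h4 := (g ^ K • H).lt
          linarith
  have h1 : cc Γ (g * a * g⁻¹) = cc Γ a := by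
    ext o
    induction o using Quotient.inductionOn with
    | h H =>
      change cc Γ (g * a * g⁻¹) (qg Γ H) = cc Γ a (qg Γ H)
      have h2 := cc_conj_apply hg ha (g⁻¹ • H)
      have h3 := main (g⁻¹ • H)
      rw [smul_inv_smul] at h2 h3
      rw [h2, h3]
  have h2 : cc Γ (g * a * g⁻¹ * a⁻¹) = 0 := by
    have h3 := cc_zpow ha (-1)
    rw [zpow_neg_one, neg_one_smul] at h3
    rw [cc_mul (hg.c1 a ha), h1, h3, add_neg_cancel]
  exact mul_inv_eq_one.1 (cc_inj hΓ (mul_mem (hg.c1 a ha) (inv_mem ha)) h2)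

end

end Pool.Agent.H599R3.SV
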