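import Pool.Agent.H599R3.SV.The

/-!
# Stabilizers are closed under roots
-/

set_option autoImplicit false

namespace Pool.Agent.H599R3.SV

open H540DG Pool.Agent.H599R3.RH

section

variable {A : Type} {P : Pres A}

/-- straddling -/
def Sd (ρ : ℚ) (J : Hyp P) : Prop := J.lo < ρ ∧ ρ < J.hi

theorem sd_smul {ρ : ℚ} {k : U P} (hk : th k ρ = ρ) (J : Hyp P) : Sd ρ (k • J) ↔ Sd ρ J := by
  unfold Sd
  rw [lo_smul, hi_smul]
  constructor
  · rintro ⟨h1, h2⟩
    rw [← hk] at h1 h2
    rw [OrderIso.lt_iff_lt] at h1 h2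
    exact ⟨h1, h2⟩
  · rintro ⟨h1, h2⟩
    rw [← (th k).lt_iff_lt, hk] at h1 h2
    exact ⟨h1, h2⟩

theorem th_inv_fix {ρ : ℚ} {k : U P} (hk : th k ρ = ρ) : th k⁻¹ ρ = ρ := by
  have : th k⁻¹ (th k ρ) = ρ := by
    rw [← RelIso.mul_apply, ← map_mul, inv_mul_cancel, map_one]; rfl
  rwa [hk] at this

theorem car {ρ : ℚ} {g1 g2 : U P} {x y : OE P} {J J' : Hyp P} (h1 : ohyp g1 x = J)
    (h2 : ohyp g2 y = J) (hJ : Sd ρ J) (hJ' : Sd ρ J') (hne : J ≠ J') : cr J' g2 = cr J' g1 := by
  obtain ⟨-, h⟩ := par_cases (h2.trans h1.symm)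
  have l1 := lo_ohyp g1 x
  have l2 := hi_ohyp g1 x
  rw [h1] at l1 l2
  obtain ⟨a1, a2⟩ := hJ
  obtain ⟨b1, b2⟩ := hJ'
  by_contra hcon
  rcases h with ⟨-, k, hk, rfl⟩ | ⟨-, k, hk, rfl⟩
  · rcases cross_Mv J' hk g1 hcon with h3 | h3
    · rw [← l1] at h3; linarith
    · rw [← l2] at h3; linarith
  · rw [← cr_val_ne J' g1 x (by rw [h1]; exact hne)] at hcon
    rcases cross_Mv J' hk _ hcon with h3 | h3
    · rw [map_mul, RelIso.mul_apply, th_val_a, ← l1] at h3; linarith
    · rw [map_mul, RelIso.mul_apply, th_val_top, ← l2] at h3; linarith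

theorem sep {ρ : ℚ} {W W' : List A} {h : U P} (hh : Pi W h W') {J J' : Hyp P} (hJ : Sd ρ J)
    (hJ' : Sd ρ J') (hne : J ≠ J') {g1 : U P} {x : OE P} (h1 : ohyp g1 x = J) (hc : uu h J ≠ 0)
    (hc' : cr J' g1 ≠ cr J' 1) : cr J' h = cr J' g1 := by
  obtain ⟨L, f1, f2, f3⟩ := min_path hh 1
  have hJL : J ∈ hys 1 L := by
    by_contra hcon
    have := cr_not_mem J 1 L hcon
    rw [one_mul, f2] at this
    apply hc
    rw [uu_apply, this, sub_self]
  obtain ⟨D, y, L2, rfl, e1, -⟩ := mem_hys L 1 hJL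
  have e2 := car h1 e1 hJ hJ' hne
  rw [hys_append] at f3
  have e3 : J' ∈ hys 1 D := by
    by_contra hcon
    have := cr_not_mem J' 1 D hcon
    rw [e2] at this
    exact hc' this
  have e4 : J' ∉ hys (1 * pv D) (y :: L2) := fun h4 =>
    (List.nodup_append.1 f3).2.2 _ e3 _ h4 rfl
  have e5 := cr_not_mem J' _ _ e4
  rw [e2] at e5
  rw [← e5, ← f2, pv_append, one_mul]

theorem hyp_root {a u c : List A} {g : U P} {m : ℕ} (hm : m ≠ 0)
    (hg : Pi (a ++ (u ++ c)) g (a ++ (u ++ c))) (h1 : Mv a [] (u ++ c) g a (u ++ c))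
    (h2 : Mv (a ++ u) [] c g (a ++ u) c) (h3 : Mv a u c (g ^ m) a c) : Mv a u c g a c := by
  obtain ⟨α1, β1, hα1, hβ1, e1⟩ := h1
  obtain ⟨α2, β2, hα2, hβ2, e2⟩ := h2
  obtain ⟨α3, β3, hα3, hβ3, e3⟩ := h3
  rw [List.nil_append, List.append_nil] at e1 e2
  set X := wh [] (u ++ c) α1 with hX
  set Y := wh (a ++ u) [] β2 with hY
  have c1 : Commute X (wh a [] β1) := interchange hα1 hβ1
  have c2 : Commute (wh [] c α2) Y := interchange hα2 hβ2
  have hau : Pi (a ++ u) (wh [] u α1) (a ++ u) := by simpa using hα1.wh [] u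
  have c3 : Commute X Y := by
    have := interchange hau hβ2
    rw [wh_wh, List.nil_append] at this
    exact this
  have cX : Commute X g := by rw [e1]; exact (Commute.refl X).mul_right c1
  have cY : Commute g Y := by rw [e2]; exact c2.mul_left (Commute.refl Y)
  have p1 : g ^ m = wh [] (u ++ c) (α1 ^ m) * wh a [] (β1 ^ m) := by
    rw [map_pow, map_pow, ← c1.mul_pow, ← e1]
  have p2 : g ^ m = wh [] c (α2 ^ m) * wh (a ++ u) [] (β2 ^ m) := by
    rw [map_pow, map_pow, ← c2.mul_pow, ← e2]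
  have q1 : α3 = α1 ^ m := by
    have hα1m : Pi a (α1 ^ m) a := (Dg P a).pow_mem (x := α1) hα1 m
    have hβ1m : Pi (u ++ c) (β1 ^ m) (u ++ c) := (Dg P (u ++ c)).pow_mem (x := β1) hβ1 m
    have hβ3' : Pi (u ++ c) (wh u [] β3) (u ++ c) := by simpa using hβ3.wh u []
    have := (prod_inj (α := (α1 ^ m)⁻¹ * α3) (β := wh u [] β3 * (β1 ^ m)⁻¹)
      (hα1m.symm.trans hα3) (hβ3'.trans hβ1m.symm) (by
        rw [map_mul, map_mul, wh_wh, map_inv, map_inv, List.append_nil]
        have : wh [] (u ++ c) α3 * wh (a ++ u) [] β3 =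
          wh [] (u ++ c) (α1 ^ m) * wh a [] (β1 ^ m) := by rw [← e3, p1]
        calc (wh [] (u ++ c) (α1 ^ m))⁻¹ * wh [] (u ++ c) α3 *
              (wh (a ++ u) [] β3 * (wh a [] (β1 ^ m))⁻¹)
            = (wh [] (u ++ c) (α1 ^ m))⁻¹ * (wh [] (u ++ c) α3 * wh (a ++ u) [] β3) *
                (wh a [] (β1 ^ m))⁻¹ := by group
          _ = 1 := by rw [this]; group)).1
    exact (inv_mul_eq_one.1 this).symm
  have q2 : β3 = β2 ^ m := by
    have hα2m : Pi (a ++ u) (α2 ^ m) (a ++ u) := (Dg P (a ++ u)).pow_mem (x := α2) hα2 m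
    have hβ2m : Pi c (β2 ^ m) c := (Dg P c).pow_mem (x := β2) hβ2 m
    have hα3' : Pi (a ++ u) (wh [] u α3) (a ++ u) := by simpa using hα3.wh [] u
    have := (prod_inj (α := (α2 ^ m)⁻¹ * wh [] u α3) (β := β3 * (β2 ^ m)⁻¹)
      (hα2m.symm.trans hα3') (hβ3.trans hβ2m.symm) (by
        rw [map_mul, map_mul, wh_wh, map_inv, map_inv, List.nil_append]
        have : wh [] (u ++ c) α3 * wh (a ++ u) [] β3 =
          wh [] c (α2 ^ m) * wh (a ++ u) [] (β2 ^ m) := by rw [← e3, p2]
        calc (wh [] c (α2 ^ m))⁻¹ * wh [] (u ++ c) α3 *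
              (wh (a ++ u) [] β3 * (wh (a ++ u) [] (β2 ^ m))⁻¹)
            = (wh [] c (α2 ^ m))⁻¹ * (wh [] (u ++ c) α3 * wh (a ++ u) [] β3) *
                (wh (a ++ u) [] (β2 ^ m))⁻¹ := by group
          _ = 1 := by rw [this]; group)).2
    exact mul_inv_eq_one.1 this
  have hXW : Pi (a ++ (u ++ c)) X (a ++ (u ++ c)) := by simpa using hα1.wh [] (u ++ c)
  have hYW : Pi (a ++ (u ++ c)) Y (a ++ (u ++ c)) := by simpa using hβ2.wh (a ++ u) []
  have hk : Pi (a ++ (u ++ c)) (X⁻¹ * g * Y⁻¹) (a ++ (u ++ c)) :=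
    (hXW.symm.trans hg).trans hYW.symm
  have hk1 : (X⁻¹ * g * Y⁻¹) ^ m = 1 := by
    have d1 : Commute (X⁻¹ * g) Y⁻¹ :=
      Commute.mul_left (c3.inv_left.inv_right) cY.inv_right
    have d2 : Commute X⁻¹ g := cX.inv_left
    rw [d1.mul_pow, d2.mul_pow, e3, q1, q2, map_pow, map_pow, ← hX, ← hY, inv_pow, inv_pow]
    group
  have hk2 := torsion_free hk hm hk1
  have hg2 : g = X * Y := by
    calc g = X * (X⁻¹ * g * Y⁻¹) * Y := by group
      _ = X * Y := by rw [hk2, mul_one]
  exact ⟨α1, β2, hα1, hβ2, hg2⟩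

theorem Mv.cutl {a u c : List A} {g : U P} (h : Mv a u c g a c) :
    Mv a [] (u ++ c) g a (u ++ c) := by
  obtain ⟨α, β, hα, hβ, e⟩ := h
  refine ⟨α, wh u [] β, hα, by simpa using hβ.wh u [], ?_⟩
  rw [e, wh_wh]
  simp

theorem Mv.cutr {a u c : List A} {g : U P} (h : Mv a u c g a c) :
    Mv (a ++ u) [] c g (a ++ u) c := by
  obtain ⟨α, β, hα, hβ, e⟩ := h
  refine ⟨wh [] u α, β, by simpa using hα.wh [] u, hβ, ?_⟩
  rw [e, wh_wh]
  simp

theorem Mv.pow {a u c : List A} {g : U P} (h : Mv a u c g a c) (n : ℕ) :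
    Mv a u c (g ^ n) a c := by
  induction n with
  | zero => rw [pow_zero]; exact H540DG.Mv.refl a u c
  | succ n ih => rw [pow_succ]; exact H540DG.Mv.trans ih h

theorem Mv.th_cut {z b z' b' : List A} {g : U P} (h : Mv z [] b g z' b') :
    H540DG.th g z'.length = z.length := by
  obtain ⟨α, β, hα, hβ, e⟩ := h
  rw [e, map_mul, RelIso.mul_apply, th_wh_right, th_wh_le _ _ _ (by simp)]
  have := hα.th (t := 0) le_rfl
  simpa using this

theorem cut_zero {z b z' b' : List A} {g : U P} (h : Mv z [] b g z' b') {J : Hyp P}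
    (hJ : Sd z.length J) : uu g J = 0 := by
  by_contra hcon
  have h1 : cr J (1 * g) ≠ cr J 1 := by
    rw [one_mul]; exact sub_ne_zero.1 hcon
  obtain ⟨h3, h4⟩ := hJ
  rcases cross_Mv J h 1 h1 with h2 | h2
  · simp at h2; linarith
  · simp at h2; linarith

theorem iso_fix (f : ℚ ≃o ℚ) {ρ : ℚ} {m : ℕ} (hm : m ≠ 0) (h : (f ^ m) ρ = ρ) : f ρ = ρ := by
  obtain ⟨m, rfl⟩ : ∃ m', m = m' + 1 := ⟨m - 1, by omega⟩
  rcases lt_trichotomy (f ρ) ρ with h1 | h1 | h1
  · exfalso
    have : ∀ k, (f ^ (k + 1)) ρ < ρ := by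
      intro k
      induction k with
      | zero => simpa using h1
      | succ k ih =>
        rw [pow_succ', RelIso.mul_apply]
        exact (f.lt_iff_lt.2 ih).trans h1
    exact absurd h (this m).ne
  · exact h1
  · exfalso
    have : ∀ k, ρ < (f ^ (k + 1)) ρ := by
      intro k
      induction k with
      | zero => simpa using h1
      | succ k ih =>
        rw [pow_succ', RelIso.mul_apply]
        exact h1.trans (f.lt_iff_lt.2 ih)
    exact absurd h (this m).ne'

theorem pow_fix {K Y : Type} [Group K] [MulAction K Y] (h : K) (y : Y) (S : Set Y)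
    (hS : S.Finite) (hm : ∀ i : ℕ, h ^ i • y ∈ S) : ∃ k : ℕ, k ≠ 0 ∧ h ^ k • y = y := by
  have hninj : ¬ Function.Injective (fun n : ℕ => h ^ n • y) := by
    intro hinj
    exact Set.infinite_of_injective_forall_mem hinj hm hS
  have key : ∀ i j : ℕ, i < j → h ^ i • y = h ^ j • y → ∃ k : ℕ, k ≠ 0 ∧ h ^ k • y = y := by
    intro i j hij he
    refine ⟨j - i, by omega, ?_⟩
    have : h ^ j = h ^ i * h ^ (j - i) := by rw [← pow_add]; congr 1; omega
    rw [this, mul_smul] at he
    exact (smul_left_cancel _ he).symm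
  unfold Function.Injective at hninj
  push Not at hninj
  obtain ⟨i, j, he, hne⟩ := hninj
  rcases lt_or_gt_of_ne hne with h1 | h1
  · exact key i j h1 he
  · exact key j i h1 he.symm

theorem first_hys (p : Hyp P → Prop) (L : List (OE P)) : ∀ g : U P, (∃ J ∈ hys g L, p J) →
    ∃ A0 x B, L = A0 ++ x :: B ∧ (∀ J ∈ hys g A0, ¬ p J) ∧ p (ohyp (g * pv A0) x) := by
  induction L with
  | nil => rintro g ⟨J, hJ, -⟩; simp [hys] at hJ
  | cons y L ih =>
    rintro g ⟨J, hJ, hp⟩
    by_cases hy : p (ohyp g y)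
    · exact ⟨[], y, L, rfl, by simp [hys], by simpa using hy⟩
    · simp only [hys, List.mem_cons] at hJ
      obtain ⟨A0, x, B, rfl, h1, h2⟩ := ih (g * y.val) ⟨J, hJ.resolve_left (by
        rintro rfl; exact hy hp), hp⟩
      refine ⟨y :: A0, x, B, rfl, ?_, ?_⟩
      · intro J hJ
        simp only [hys, List.mem_cons] at hJ
        rcases hJ with rfl | hJ
        · exact hy
        · exact h1 J hJ
      · simpa [mul_assoc] using h2

theorem nm_val (x : OE P) : nm (uu x.val) ≤ 1 := by
  classical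
  rw [nm_of_subset (s := {ohyp 1 x})]
  · rw [Finset.sum_singleton]
    have := cr_val_one (ohyp 1 x) 1 x
    rw [one_mul] at this
    rw [uu_apply]
    have := abs_le.1 this
    omega
  · intro H hH
    rw [Finsupp.mem_support_iff, uu_apply] at hH
    rw [Finset.mem_singleton]
    by_contra hcon
    apply hH
    have := cr_val_ne H 1 x (Ne.symm hcon)
    rw [one_mul] at this
    rw [this, sub_self]

theorem nm_path (L : List (OE P)) : nm (uu (pv L)) ≤ L.length := by
  induction L with
  | nil => rw [pv_nil, uu_one, nm_zero]; exact Nat.zero_le _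
  | cons x L ih =>
    rw [pv_cons, uu_mul]
    refine (nm_add _ _).trans ?_
    have h1 := nm_val x
    have h2 := nm_mapDomain (x.val • ·) (uu (pv L))
    rw [List.length_cons]
    omega

theorem nm_erase {α : Type} (f : α →₀ ℤ) (a : α) (z : ℤ) (h : f a = z) (hz : z ≠ 0) :
    nm (f - Finsupp.single a z) + 1 ≤ nm f := by
  classical
  have h1 : (f - Finsupp.single a z).support ⊆ f.support := by
    intro b hb
    rw [Finsupp.mem_support_iff, Finsupp.sub_apply, Finsupp.single_apply] at hb
    rw [Finsupp.mem_support_iff]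
    intro h2
    apply hb
    rw [h2]
    split_ifs with h3
    · subst h3
      rw [h] at h2
      rw [h2, sub_zero]
    · rfl
  have ha : a ∈ f.support := by rw [Finsupp.mem_support_iff, h]; exact hz
  rw [nm_of_subset h1]
  unfold nm
  rw [← Finset.add_sum_erase _ _ ha, ← Finset.add_sum_erase _ _ ha]
  have h2 : ∑ x ∈ f.support.erase a, ((f - Finsupp.single a z) x).natAbs =
      ∑ x ∈ f.support.erase a, (f x).natAbs := by
    apply Finset.sum_congr rfl
    intro x hx
    rw [Finsupp.sub_apply, Finsupp.single_apply, if_neg (Finset.ne_of_mem_erase hx).symm,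
      sub_zero]
  rw [h2, Finsupp.sub_apply, Finsupp.single_apply, if_pos rfl, h, sub_self]
  have : z.natAbs ≠ 0 := Int.natAbs_ne_zero.2 hz
  omega

theorem len_le_nm {L : List (OE P)} (h : (hys 1 L).Nodup) : L.length ≤ nm (uu (pv L)) := by
  classical
  rw [← hys_length 1 L, ← List.toFinset_card_of_nodup h]
  refine le_trans (Finset.card_le_card ?_) (card_le_nm _)
  intro H hH
  rw [List.mem_toFinset] at hH
  rw [Finsupp.mem_support_iff, uu_apply]
  have := cr_mem H 1 L h hH
  rw [one_mul] at this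
  exact sub_ne_zero.2 this

theorem smul_ohyp (k g : U P) (x : OE P) : k • ohyp g x = ohyp (k * g) x := by
  rcases x with ⟨a, r, s, c⟩
  cases s
  · simp only [ohyp]
    rw [if_neg (by simp), if_neg (by simp), smul_hyp, mul_assoc]
  · rfl

theorem ohyp_inv (g : U P) (x : OE P) : ohyp (g * x.val) x.inv = ohyp g x := by
  rcases x with ⟨a, r, s, c⟩
  cases s
  · rfl
  · change hyp (g * gen ⟨a, r, c⟩ * (gen ⟨a, r, c⟩)⁻¹) ⟨a, r, c⟩ = hyp g ⟨a, r, c⟩
    rw [mul_inv_cancel_right]

theorem inv_top (x : OE P) : x.inv.top = x.bot := by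
  rcases x with ⟨a, r, s, c⟩
  cases s <;> rfl

theorem ohyp_mv {g k : U P} {x : OE P} (h : Mv x.a x.top x.c k x.a x.c) :
    ohyp (g * k) x = ohyp g x := by
  rcases x with ⟨a, r, s, c⟩
  cases s
  · obtain ⟨α, β, hα, hβ, e⟩ := h
    simp only [ohyp, OE.edge] at *
    rw [if_neg (by simp), if_neg (by simp)]
    symm
    rw [hyp_eq]
    have h1 := Mv.cross r hα hβ
    refine ⟨rfl, wh [] (r.1.1 ++ c) α * wh (a ++ r.1.1) [] β, ⟨α, β, hα, hβ, rfl⟩, ?_⟩
    change g * k * (gen ⟨a, r, c⟩)⁻¹ = g * (gen ⟨a, r, c⟩)⁻¹ * _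
    have h2 : k = wh [] (r.1.2 ++ c) α * wh (a ++ r.1.2) [] β := e
    rw [← h2] at h1
    have h3 : wh [] (r.1.1 ++ c) α * wh (a ++ r.1.1) [] β =
        gen ⟨a, r, c⟩ * k * (gen ⟨a, r, c⟩)⁻¹ := by rw [← h1]; group
    rw [h3]
    group
  · symm
    change hyp g ⟨a, r, c⟩ = hyp (g * k) ⟨a, r, c⟩
    rw [hyp_eq]
    exact ⟨rfl, k, h, rfl⟩

theorem mv_of_fix {g δ : U P} {x : OE P} (h : g • ohyp δ x = ohyp δ x) :
    Mv x.a x.top x.c (δ⁻¹ * g * δ) x.a x.c := by
  rw [smul_ohyp] at h
  obtain ⟨-, h1⟩ := par_cases h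
  rcases h1 with ⟨-, k, hk, e⟩ | ⟨h2, -⟩
  · have : δ⁻¹ * g * δ = k := by rw [mul_assoc, e]; group
    rw [this]
    exact hk
  · exfalso
    cases hs : x.s <;> rw [hs] at h2 <;> simp at h2

/-- **Stabilizers of cuts are closed under roots** -/
theorem cut_root (n : ℕ) : ∀ (z b : List A) (g : U P) (m : ℕ), nm (uu g) ≤ n → m ≠ 0 →
    Pi (z ++ b) g (z ++ b) → Mv z [] b (g ^ m) z b → Mv z [] b g z b := by
  induction n using Nat.strong_induction_on with
  | _ n IH =>
    intro z b g m hn hm hg hMv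
    set ρ : ℚ := (z.length : ℚ) with hρ
    have hθ : th g ρ = ρ := by
      apply iso_fix (th g) hm
      rw [← map_pow]
      exact Mv.th_cut hMv
    have hθi : th g⁻¹ ρ = ρ := th_inv_fix hθ
    obtain ⟨L, f1, f2, f3⟩ := min_path hg 1
    by_cases hex : ∃ J ∈ hys 1 L, Sd ρ J
    · exfalso
      obtain ⟨A0, x, B, rfl, a1, a2⟩ := first_hys (Sd ρ) L 1 hex
      rw [one_mul] at a2
      set δ := pv A0 with hδ
      set J1 := ohyp δ x with hJ1
      set δ' := δ * x.val with hδ'
      have hgδ : g = δ' * pv B := by rw [← f2, pv_append, pv_cons, mul_assoc]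
      obtain ⟨W1, w1, w2, w3⟩ := f1.split
      have hδW : Pi (z ++ b) δ x.src := ⟨A0, by rw [← w2]; exact w1, rfl⟩
      have hδ'W : Pi (z ++ b) δ' x.tgt := hδW.trans (Pi.oe x)
      have hδ0 : ∀ J, Sd ρ J → uu δ J = 0 := by
        intro J hJ
        have := cr_not_mem J 1 A0 (fun h => a1 J h hJ)
        rw [one_mul] at this
        rw [uu_apply, this, sub_self]
      have hδ'0 : ∀ J, Sd ρ J → J1 ≠ J → uu δ' J = 0 := by
        intro J hJ hne
        rw [uu_apply, cr_val_ne J δ x hne, ← uu_apply]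
        exact hδ0 J hJ
      set ε := uu δ' J1 with hε
      have hε0 : ε ≠ 0 := by
        rw [hε, uu_apply]
        have h1 := cr_val_eq J1 δ x rfl
        have h2 := hδ0 J1 a2
        rw [uu_apply] at h2
        intro h3
        apply h1
        rw [← hδ']
        linarith
      have hgε : uu g J1 = ε := by
        rw [hys_append] at f3
        have h1 := (List.nodup_append.1 f3).2.1
        rw [one_mul] at h1
        simp only [hys, List.nodup_cons] at h1
        have h2 := cr_not_mem J1 _ B h1.1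
        rw [hε, uu_apply, uu_apply, hgδ, h2]
      -- a power fixing `J1`
      have hz : ∀ k : ℕ, ∀ J, Sd ρ J → uu ((g ^ m) ^ k) J = 0 := fun k J hJ =>
        cut_zero (Mv.pow hMv k) hJ
      have hz1 : ∀ J, Sd ρ J → uu (g ^ m) J = 0 := fun J hJ => by
        have := hz 1 J hJ
        rwa [pow_one] at this
      have hinv : ∀ J, Sd ρ J → uu g ((g ^ m)⁻¹ • J) = uu g J := by
        intro J hJ
        have h1 : uu (g * g ^ m) J = uu (g ^ m * g) J := by rw [← pow_succ, ← pow_succ']
        rw [uu_mul g, uu_mul (g ^ m), Finsupp.add_apply, Finsupp.add_apply,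
          mapDomain_smul_apply, mapDomain_smul_apply, hz1 J hJ,
          hz1 _ ((sd_smul hθi J).2 hJ)] at h1
        linarith
      have hθm : th (g ^ m)⁻¹ ρ = ρ := th_inv_fix (Mv.th_cut hMv)
      have horb : ∀ i : ℕ, ((g ^ m)⁻¹) ^ i • J1 ∈
          {J | J ∈ (uu g).support ∧ Sd ρ J} := by
        intro i
        induction i with
        | zero =>
          rw [pow_zero, one_smul]
          exact ⟨by rw [Finsupp.mem_support_iff, hgε]; exact hε0, a2⟩
        | succ i ih =>
          rw [pow_succ', mul_smul]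
          refine ⟨?_, (sd_smul hθm _).2 ih.2⟩
          rw [Finsupp.mem_support_iff, hinv _ ih.2, ← Finsupp.mem_support_iff]
          exact ih.1
      obtain ⟨k, hk0, hk⟩ := pow_fix _ J1 _
        ((Finset.finite_toSet (uu g).support).subset (fun J hJ => hJ.1)) horb
      set M := m * k with hM
      have hM0 : M ≠ 0 := Nat.mul_ne_zero hm hk0
      have hgM : g ^ M • J1 = J1 := by
        conv_lhs => rw [← hk]
        rw [smul_smul, hM, pow_mul, inv_pow, mul_inv_cancel, one_smul]
      have hgMz : uu (g ^ M) J1 = 0 := by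
        rw [hM, pow_mul]
        exact hz k J1 a2
      have hne : g • J1 ≠ J1 := by
        intro h
        exact hε0 (hgε ▸ uu_fix hg h)
      have hsd : Sd ρ (g • J1) := (sd_smul hθ J1).2 a2
      have hgi : g⁻¹ • g • J1 = J1 := inv_smul_smul _ _
      by_cases hA : uu g (g • J1) = 0
      · -- hyperbolic case
        have hall : ∀ i : ℕ, uu (g ^ (i + 1)) J1 = ε := by
          intro i
          induction i with
          | zero => rw [zero_add, pow_one]; exact hgε
          | succ i ih =>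
            have h1 : uu (g ^ (i + 1 + 1)) (g • J1) ≠ 0 := by
              rw [pow_succ', uu_mul, Finsupp.add_apply, mapDomain_smul_apply, hgi, hA, ih,
                zero_add]
              exact hε0
            have h2 : uu (g * δ) J1 = ε := by
              rw [uu_mul, Finsupp.add_apply, mapDomain_smul_apply, hgε,
                hδ0 _ ((sd_smul hθi J1).2 a2), add_zero]
            have h3 : ohyp (g * δ) x = g • J1 := (smul_ohyp g δ x).symm
            have h4 := sep ((Dg P (z ++ b)).pow_mem (x := g) hg (i + 1 + 1)) hsd a2 hne h3 h1 (by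
              rw [uu_apply] at h2
              intro h5
              rw [h5, sub_self] at h2
              exact hε0 h2.symm)
            rw [uu_apply, h4, ← uu_apply]
            exact h2
        have := hall (M - 1)
        rw [Nat.sub_add_cancel (Nat.one_le_iff_ne_zero.2 hM0), hgMz] at this
        exact hε0 this.symm
      · -- elliptic case: conjugate
        set s := uu g (g • J1) with hs
        have hs1 : s = -ε := by
          have h1 := abs_le.1 (uu_le_one hg (g • J1))
          have h2 := abs_le.1 (uu_le_one hδ'W J1)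
          have h3 := abs_le.1 (uu_le_one (hg.trans hδ'W) (g • J1))
          rw [uu_mul, Finsupp.add_apply, mapDomain_smul_apply, hgi] at h3
          rw [← hs] at h1 h3
          rw [← hε] at h2 h3
          omega
        set g' := δ'⁻¹ * g * δ' with hg'
        have hg'W : Pi x.tgt g' x.tgt := (hδ'W.symm.trans hg).trans hδ'W
        have hnm : nm (uu g') < n := by
          have e1 : uu g' = Finsupp.mapDomain (δ'⁻¹ • ·)
              ((uu g - uu δ') + Finsupp.mapDomain (g • ·) (uu δ')) := by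
            ext H
            rw [mapDomain_smul_apply, inv_inv, Finsupp.add_apply, Finsupp.sub_apply,
              mapDomain_smul_apply, hg', mul_assoc]
            have h1 := DFunLike.congr_fun (uu_mul δ' (δ'⁻¹ * (g * δ'))) (δ' • H)
            rw [mul_inv_cancel_left, Finsupp.add_apply, mapDomain_smul_apply, inv_smul_smul,
              uu_mul, Finsupp.add_apply, mapDomain_smul_apply] at h1
            linarith
          have e2 : nm (uu g') ≤ nm ((uu g - uu δ') + Finsupp.mapDomain (g • ·) (uu δ')) := by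
            rw [e1]; exact nm_mapDomain _ _
          have e3 : (uu g - uu δ') (g • J1) = -ε := by
            rw [Finsupp.sub_apply, hδ'0 _ hsd hne.symm, sub_zero, ← hs, hs1]
          have e4 : Finsupp.mapDomain (g • ·) (uu δ') (g • J1) = ε := by
            rw [mapDomain_smul_apply, hgi]
          have e5 := nm_erase _ _ _ e3 (neg_ne_zero.2 hε0)
          have e6 := nm_erase _ _ _ e4 hε0
          have e7 : (uu g - uu δ') + Finsupp.mapDomain (g • ·) (uu δ') =
              ((uu g - uu δ') - Finsupp.single (g • J1) (-ε)) +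
              (Finsupp.mapDomain (g • ·) (uu δ') - Finsupp.single (g • J1) ε) := by
            rw [Finsupp.single_neg]; abel
          have e8 := nm_add ((uu g - uu δ') - Finsupp.single (g • J1) (-ε))
            (Finsupp.mapDomain (g • ·) (uu δ') - Finsupp.single (g • J1) ε)
          rw [← e7] at e8
          have e9 : uu g - uu δ' = Finsupp.mapDomain (δ' • ·) (uu (pv B)) := by
            rw [hgδ, uu_mul]; abel
          have e10 : nm (uu g - uu δ') ≤ B.length := by
            rw [e9]; exact (nm_mapDomain _ _).trans (nm_path B)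
          have e11 : nm (Finsupp.mapDomain (g • ·) (uu δ')) ≤ A0.length + 1 := by
            refine (nm_mapDomain _ _).trans ?_
            have := nm_path (A0 ++ [x])
            rw [pv_append, pv_cons, pv_nil, mul_one, List.length_append] at this
            exact this
          have e12 := len_le_nm f3
          rw [f2] at e12
          simp only [List.length_append, List.length_cons] at e12
          omega
        have hfix : g ^ M • ohyp δ' x.inv = ohyp δ' x.inv := by
          rw [hδ', ohyp_inv]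
          exact hgM
        have hmv := mv_of_fix hfix
        have hpow : δ'⁻¹ * g ^ M * δ' = g' ^ M := by
          have := conj_pow (i := M) (a := δ'⁻¹) (b := g)
          rw [inv_inv] at this
          rw [hg', this]
        rw [hpow, inv_top] at hmv
        change Mv x.a x.bot x.c (g' ^ M) x.a x.c at hmv
        have hW : x.tgt = x.a ++ (x.bot ++ x.c) := rfl
        rw [hW] at hg'W
        have r1 := IH _ hnm x.a (x.bot ++ x.c) g' M le_rfl hM0 hg'W (Mv.cutl hmv)
        have r2 := IH _ hnm (x.a ++ x.bot) x.c g' M le_rfl hM0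
          (by rw [List.append_assoc]; exact hg'W) (Mv.cutr hmv)
        have r3 := hyp_root hM0 hg'W r1 r2 hmv
        apply hne
        have r4 : g • ohyp δ' x.inv = ohyp δ' x.inv := by
          rw [smul_ohyp]
          have : g * δ' = δ' * g' := by rw [hg']; group
          rw [this]
          apply ohyp_mv
          rw [inv_top]
          exact r3
        rw [hδ', ohyp_inv] at r4
        exact r4
    · push Not at hex
      obtain ⟨z', c', e1, e2⟩ := dec_m L 1 z [] b _ f1 (by
        intro J hJ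
        have h1 := hex J hJ
        unfold Sd at h1
        push Not at h1
        rw [map_one]
        simp only [List.length_nil, Nat.cast_zero, add_zero, RelIso.coe_one, id_eq]
        by_cases h2 : J.lo < ρ
        · left; exact h1 h2
        · right; exact not_lt.1 h2)
      rw [f2] at e2
      have h3 := Mv.th_cut e2
      rw [← hρ] at h3
      have h4 := (th g).injective (h3.trans hθ.symm)
      have h5 : z.length = z'.length := by
        rw [hρ] at h4; exact_mod_cast h4.symm
      obtain ⟨h6, h7⟩ := List.append_inj e1 h5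
      rw [List.nil_append] at h7
      rw [← h6, ← h7] at e2
      exact e2

/-- **Stabilizers of hyperplanes are closed under roots** -/
theorem hyp_rc {w : List A} {g γ : U P} (hg : Pi w g w) {x : OE P} (hγ : Pi w γ x.src) {m : ℕ}
    (hm : m ≠ 0) (h : g ^ m • ohyp γ x = ohyp γ x) : g • ohyp γ x = ohyp γ x := by
  have h1 := mv_of_fix h
  set g' := γ⁻¹ * g * γ with hg'
  have hpow : γ⁻¹ * g ^ m * γ = g' ^ m := by
    have := conj_pow (i := m) (a := γ⁻¹) (b := g)
    rw [inv_inv] at this
    rw [hg', this]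
  rw [hpow] at h1
  have hg'W : Pi (x.a ++ (x.top ++ x.c)) g' (x.a ++ (x.top ++ x.c)) :=
    (hγ.symm.trans hg).trans hγ
  have r1 := cut_root _ x.a (x.top ++ x.c) g' m le_rfl hm hg'W (Mv.cutl h1)
  have r2 := cut_root _ (x.a ++ x.top) x.c g' m le_rfl hm
    (by rw [List.append_assoc]; exact hg'W) (Mv.cutr h1)
  have r3 := hyp_root hm hg'W r1 r2 h1
  rw [smul_ohyp]
  have : g * γ = γ * g' := by rw [hg']; group
  rw [this]
  exact ohyp_mv r3

/-- visible hyperplanes -/
def Vz (w : List A) (H : Hyp P) : Prop := ∃ (γ : U P) (x : OE P), Pi w γ x.src ∧ ohyp γ x = H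

theorem vz_of_uu {w w' : List A} {g : U P} (hg : Pi w g w') {H : Hyp P} (h : uu g H ≠ 0) :
    Vz w H := by
  have h1 : uu (wh [] [] g) H ≠ 0 := by rw [wh_nil]; exact h
  obtain ⟨η, a, r, c, h2, h3⟩ := vis0 [] [] hg H h1
  rw [wh_nil, List.append_nil, List.nil_append] at h3
  exact ⟨η, ⟨a, r, true, c⟩, h2, h3.symm⟩

theorem vz_smul {w : List A} {g : U P} (hg : Pi w g w) {H : Hyp P} (h : Vz w H) :
    Vz w (g • H) := by
  obtain ⟨γ, x, h1, rfl⟩ := h
  exact ⟨g * γ, x, hg.trans h1, (smul_ohyp g γ x).symm⟩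

theorem rc {w : List A} {g : U P} (hg : Pi w g w) {H : Hyp P} (hH : Vz w H) {m : ℕ}
    (hm : m ≠ 0) (h : g ^ m • H = H) : g • H = H := by
  obtain ⟨γ, x, h1, rfl⟩ := hH
  exact hyp_rc hg h1 hm h

end

end Pool.Agent.H599R3.SV
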