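import Pool.Agent.H599R3.SV.Cup

/-!
# Finitely many types of pairs of hyperplanes
-/

set_option autoImplicit false

namespace Pool.Agent.H599R3.SV

open H540DG Pool.Agent.H599R3.RH

section

variable {A : Type} {P : Pres A}

/-- orbits of a cyclic group of hyperplanes -/
abbrev Qo (x : U P) : Type := Quotient (MulAction.orbitRel (Subgroup.zpowers x) (Hyp P))

/-- the orbit -/
def qo (x : U P) (H : Hyp P) : Qo x := Quotient.mk _ H

theorem qo_smul (x : U P) (H : Hyp P) : qo x (x • H) = qo x H :=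
  Quotient.sound ⟨⟨x, Subgroup.mem_zpowers x⟩, rfl⟩

/-- orbit sums -/
noncomputable def os (x : U P) : Qo x →₀ ℤ := Finsupp.mapDomain (qo x) (uu x)

theorem os_ne {W : List A} {x : U P} (hx : Pi W x W) (h1 : x ≠ 1) : os x ≠ 0 := by
  intro hf
  obtain ⟨v, hv⟩ := coinv x (uu x) hf
  have hn : ∀ n : ℕ, uu (x ^ n) = Finsupp.mapDomain ((x ^ n) • ·) v - v := by
    intro n
    induction n with
    | zero =>
      rw [pow_zero, uu_one]
      ext H
      rw [Finsupp.sub_apply, mapDomain_smul_apply, inv_one, one_smul]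
      simp
    | succ n ih =>
      rw [pow_succ, uu_mul, ih, hv]
      ext H
      simp only [Finsupp.add_apply, Finsupp.sub_apply, mapDomain_smul_apply]
      rw [mul_inv_rev, mul_smul]
      ring
  have h2 := growth hx h1 (nm v + nm v + 1)
  rw [hn] at h2
  have h3 := nm_sub (Finsupp.mapDomain ((x ^ (nm v + nm v + 1)) • ·) v) v
  have h4 := nm_mapDomain ((x ^ (nm v + nm v + 1)) • ·) v
  omega

theorem exists_os {W : List A} {x : U P} (hx : Pi W x W) (h1 : x ≠ 1) :
    ∃ H, os x (qo x H) ≠ 0 ∧ uu x H ≠ 0 := by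
  classical
  have h2 := os_ne hx h1
  obtain ⟨O, hO⟩ := Finsupp.support_nonempty_iff.2 h2
  have h3 := Finsupp.mapDomain_support hO
  rw [Finset.mem_image] at h3
  obtain ⟨H, h4, h5⟩ := h3
  refine ⟨H, ?_, Finsupp.mem_support_iff.1 h4⟩
  rw [h5]
  exact Finsupp.mem_support_iff.1 hO

theorem uu_fix {W : List A} {x : U P} (hx : Pi W x W) {H : Hyp P} (h : x • H = H) :
    uu x H = 0 := by
  have h1 : x⁻¹ • H = H := by
    conv_lhs => rw [← h]
    rw [inv_smul_smul]
  have h2 := uu_le_one (hx.trans hx) H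
  rw [uu_mul, Finsupp.add_apply, mapDomain_smul_apply, h1] at h2
  have := abs_le.1 h2
  omega

/-- abstract functional -/
theorem theta {x y : U P} (hxy : x * y = y * x) (f g : Hyp P →₀ ℤ)
    (hf : ∀ H, f H ≠ 0 → y • H = H) (hg : ∀ H, g H ≠ 0 → x • H = H)
    (hf' : ∀ H, f H ≠ 0 → x • H ≠ H) (η f1 f2 : Hyp P × Hyp P →₀ ℤ)
    (heq : tens f (Finsupp.mapDomain (x • ·) g) - tens g (Finsupp.mapDomain (y • ·) f) =
      η + (pa x f1 - f1) + (pa y f2 - f2)) (H K : Hyp P)
    (hH : Finsupp.mapDomain (qo x) f (qo x H) ≠ 0)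
    (hK : Finsupp.mapDomain (qo y) g (qo y K) ≠ 0) :
    ∃ z, η z ≠ 0 ∧ y • z.1 = z.1 ∧ x • z.2 = z.2 ∧ qo x z.1 = qo x H ∧ qo y z.2 = qo y K := by
  classical
  have hixy : ∀ Z : Hyp P, x • y • Z = y • x • Z := by
    intro Z; rw [smul_smul, smul_smul, hxy]
  let S : Hyp P × Hyp P → Prop := fun z => y • z.1 = z.1 ∧ x • z.2 = z.2
  let q : Hyp P × Hyp P → Qo x × Qo y := fun z => (qo x z.1, qo y z.2)
  have hSx : ∀ z, S (x⁻¹ • z.1, x⁻¹ • z.2) ↔ S z := by
    intro z
    constructor
    · rintro ⟨h1, h2⟩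
      have e1 : z.1 = x • x⁻¹ • z.1 := by rw [smul_inv_smul]
      have e2 : z.2 = x • x⁻¹ • z.2 := by rw [smul_inv_smul]
      refine ⟨?_, ?_⟩
      · rw [e1, ← hixy, h1]
      · have h2 : x • x⁻¹ • z.2 = x⁻¹ • z.2 := h2
        rw [smul_inv_smul] at h2
        conv_lhs => rw [h2]
        rw [smul_inv_smul]
    · rintro ⟨h1, h2⟩
      have h2' : x⁻¹ • z.2 = z.2 := by
        conv_lhs => rw [← h2]
        rw [inv_smul_smul]
      refine ⟨?_, ?_⟩
      · have := hixy (x⁻¹ • z.1)
        rw [smul_inv_smul, h1] at this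
        change y • x⁻¹ • z.1 = x⁻¹ • z.1
        rw [← smul_left_cancel_iff x, this, smul_inv_smul]
      · change x • x⁻¹ • z.2 = x⁻¹ • z.2
        rw [smul_inv_smul, h2']
  have hSy : ∀ z, S (y⁻¹ • z.1, y⁻¹ • z.2) ↔ S z := by
    intro z
    constructor
    · rintro ⟨h1, h2⟩
      have e2 : z.2 = y • y⁻¹ • z.2 := by rw [smul_inv_smul]
      refine ⟨?_, ?_⟩
      · have h1 : y • y⁻¹ • z.1 = y⁻¹ • z.1 := h1
        rw [smul_inv_smul] at h1
        conv_lhs => rw [h1]
        rw [smul_inv_smul]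
      · rw [e2, hixy, h2]
    · rintro ⟨h1, h2⟩
      have h1' : y⁻¹ • z.1 = z.1 := by
        conv_lhs => rw [← h1]
        rw [inv_smul_smul]
      refine ⟨?_, ?_⟩
      · change y • y⁻¹ • z.1 = y⁻¹ • z.1
        rw [smul_inv_smul, h1']
      · have := hixy (y⁻¹ • z.2)
        rw [smul_inv_smul, h2] at this
        change x • y⁻¹ • z.2 = y⁻¹ • z.2
        rw [← smul_left_cancel_iff y, ← this, smul_inv_smul]
  have hfil : ∀ (k : U P), (∀ z, S (k⁻¹ • z.1, k⁻¹ • z.2) ↔ S z) →
      (∀ z, S z → q (k • z.1, k • z.2) = q z) → ∀ F : Hyp P × Hyp P →₀ ℤ,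
      Finsupp.mapDomain q ((pa k F).filter S) = Finsupp.mapDomain q (F.filter S) := by
    intro k hk hq F
    have h1 : (pa k F).filter S = pa k (F.filter S) := by
      ext z
      rw [pa_apply]
      by_cases h : S z
      · rw [Finsupp.filter_apply_pos _ _ h, pa_apply,
          Finsupp.filter_apply_pos _ _ ((hk z).2 h)]
      · rw [Finsupp.filter_apply_neg _ _ h,
          Finsupp.filter_apply_neg _ _ (fun h' => h ((hk z).1 h'))]
    rw [h1]
    change Finsupp.mapDomain q (Finsupp.mapDomain _ _) = _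
    rw [← Finsupp.mapDomain_comp]
    apply Finsupp.mapDomain_congr
    intro z hz
    rw [Finsupp.mem_support_iff] at hz
    apply hq
    by_contra hcon
    exact hz (Finsupp.filter_apply_neg _ _ hcon)
  have hqx : ∀ z, S z → q (x • z.1, x • z.2) = q z := by
    rintro z ⟨h1, h2⟩
    refine Prod.ext (qo_smul x z.1) ?_
    change qo y (x • z.2) = qo y z.2
    rw [h2]
  have hqy : ∀ z, S z → q (y • z.1, y • z.2) = q z := by
    rintro z ⟨h1, h2⟩
    refine Prod.ext ?_ (qo_smul y z.2)
    change qo x (y • z.1) = qo x z.1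
    rw [h1]
  have hmain := congrArg (fun F => Finsupp.mapDomain q (Finsupp.filter S F)) heq
  simp only [Finsupp.filter_sub, Finsupp.filter_add] at hmain
  have hsub : ∀ F F' : Hyp P × Hyp P →₀ ℤ, Finsupp.mapDomain q (F - F') =
      Finsupp.mapDomain q F - Finsupp.mapDomain q F' :=
    fun F F' => map_sub (Finsupp.mapDomain.addMonoidHom q) F F'
  have hadd : ∀ F F' : Hyp P × Hyp P →₀ ℤ, Finsupp.mapDomain q (F + F') =
      Finsupp.mapDomain q F + Finsupp.mapDomain q F' := fun F F' => Finsupp.mapDomain_add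
  rw [hsub, hadd, hadd, hsub, hsub, hfil x hSx hqx, hfil y hSy hqy, sub_self, sub_self, add_zero,
    add_zero] at hmain
  -- the left side
  have hg' : Finsupp.mapDomain (x • ·) g = g := by
    ext Z
    rw [mapDomain_smul_apply]
    by_cases h : g Z = 0
    · rw [h]
      by_contra h2
      have h3 := hg _ h2
      rw [smul_inv_smul] at h3
      rw [← h3] at h2
      exact h2 h
    · have h3 := hg _ h
      congr 1
      conv_lhs => rw [← h3]
      rw [inv_smul_smul]
  have hS1 : (tens f (Finsupp.mapDomain (x • ·) g)).filter S = tens f g := by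
    rw [hg', Finsupp.filter_eq_self_iff]
    intro z hz
    rw [tens_apply] at hz
    exact ⟨hf _ (left_ne_zero_of_mul hz), hg _ (right_ne_zero_of_mul hz)⟩
  have hS2 : (tens g (Finsupp.mapDomain (y • ·) f)).filter S = 0 := by
    ext z
    by_cases hz : S z
    · rw [Finsupp.filter_apply_pos _ _ hz, tens_apply, mapDomain_smul_apply]
      by_contra hcon
      have hcon : g z.1 * f (y⁻¹ • z.2) ≠ 0 := hcon
      have h2 := right_ne_zero_of_mul hcon
      have h3 := hf _ h2
      have h4 := hf' _ h2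
      rw [smul_inv_smul] at h3
      rw [← h3] at h4
      exact h4 hz.2
    · rw [Finsupp.filter_apply_neg _ _ hz]; rfl
  have hten : Finsupp.mapDomain q (tens f g) =
      tens (Finsupp.mapDomain (qo x) f) (Finsupp.mapDomain (qo y) g) := by
    have key : ∀ g : Hyp P →₀ ℤ, ∀ f : Hyp P →₀ ℤ, Finsupp.mapDomain q (tens f g) =
      tens (Finsupp.mapDomain (qo x) f) (Finsupp.mapDomain (qo y) g) := by
      intro g f
      induction f using Finsupp.induction_linear with
      | zero =>
        have : tens (0 : Hyp P →₀ ℤ) g = 0 := by ext z; rw [tens_apply]; simp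
        rw [this, Finsupp.mapDomain_zero, Finsupp.mapDomain_zero]
        ext z; rw [tens_apply]; simp
      | add f f' h h' =>
        have : tens (f + f') g = tens f g + tens f' g := by
          ext z; rw [Finsupp.add_apply, tens_apply, tens_apply, tens_apply, Finsupp.add_apply]; ring
        rw [this, hadd, h, h', Finsupp.mapDomain_add]
        ext z; rw [Finsupp.add_apply, tens_apply, tens_apply, tens_apply, Finsupp.add_apply]; ring
      | single a n =>
        induction g using Finsupp.induction_linear with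
        | zero =>
          have : tens (Finsupp.single a n) (0 : Hyp P →₀ ℤ) = 0 := by
            ext z; rw [tens_apply]; simp
          rw [this, Finsupp.mapDomain_zero, Finsupp.mapDomain_zero]
          ext z; rw [tens_apply]; simp
        | add g g' h h' =>
          have : tens (Finsupp.single a n) (g + g') = tens (Finsupp.single a n) g +
              tens (Finsupp.single a n) g' := by
            ext z; rw [Finsupp.add_apply, tens_apply, tens_apply, tens_apply, Finsupp.add_apply]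
            ring
          rw [this, hadd, h, h', Finsupp.mapDomain_add]
          ext z; rw [Finsupp.add_apply, tens_apply, tens_apply, tens_apply, Finsupp.add_apply]; ring
        | single b m =>
          have hts : ∀ {α β : Type} (a : α) (b : β), tens (Finsupp.single a n)
              (Finsupp.single b m) = Finsupp.single (a, b) (n * m) := by
            intro α β a b
            ext z
            rw [tens_apply]
            simp only [Finsupp.single_apply, Prod.ext_iff]
            by_cases h1 : a = z.1 <;> by_cases h2 : b = z.2 <;> simp [h1, h2]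
          rw [hts, Finsupp.mapDomain_single, Finsupp.mapDomain_single, Finsupp.mapDomain_single,
            hts]
    exact key g f
  rw [hS1, hS2, Finsupp.mapDomain_zero, sub_zero, hten] at hmain
  have hval := DFunLike.congr_fun hmain (qo x H, qo y K)
  rw [tens_apply] at hval
  have hne : Finsupp.mapDomain q (Finsupp.filter S η) (qo x H, qo y K) ≠ 0 := by
    rw [← hval]; exact mul_ne_zero hH hK
  have hmem := Finsupp.mapDomain_support (Finsupp.mem_support_iff.2 hne)
  rw [Finset.mem_image] at hmem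
  obtain ⟨z, hz1, hz2⟩ := hmem
  rw [Finsupp.mem_support_iff] at hz1
  have hzS : S z := by
    by_contra hcon
    exact hz1 (Finsupp.filter_apply_neg _ _ hcon)
  rw [Finsupp.filter_apply_pos _ _ hzS] at hz1
  exact ⟨z, hz1, hzS.1, hzS.2, congrArg Prod.fst hz2, congrArg Prod.snd hz2⟩

/-- hyperplanes crossed by a left element are fixed by right elements -/
theorem vis (pre suf : List A) {p p' : List A} {α : U P} (h : Pi p α p') : ∀ (k : U P) (H : Hyp P),
    cr H (k * wh pre suf α) ≠ cr H k →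
    ∃ (η : U P) (a : List A) (r : P.rels) (c : List A), Pi p η (a ++ (r.1.1 ++ c)) ∧
      H = hyp (k * wh pre suf η) ⟨pre ++ a, r, c ++ suf⟩ := by
  induction h using Pi.induction with
  | h0 W => intro k H hF; simp at hF
  | h1 x α W' _ ih =>
    intro k H hF
    by_cases hx : ohyp k (x.w pre suf) = H
    · rcases x with ⟨a, r, s, c⟩
      cases s
      · refine ⟨(⟨a, r, false, c⟩ : OE P).val, a, r, c, ?_, ?_⟩
        · exact Pi.oe (⟨a, r, false, c⟩ : OE P)
        · rw [← hx, wh_val]; rfl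
      · refine ⟨1, a, r, c, ?_, ?_⟩
        · exact Pi.refl _
        · rw [← hx, map_one, mul_one]; rfl
    · rw [map_mul, wh_val, ← mul_assoc, ← cr_val_ne H k _ hx] at hF
      obtain ⟨η, a, r, c, h1, h2⟩ := ih _ H hF
      refine ⟨x.val * η, a, r, c, (Pi.oe x).trans h1, ?_⟩
      rw [h2, map_mul, wh_val, mul_assoc]

theorem vis0 (pre suf : List A) {p p' : List A} {α : U P} (h : Pi p α p') (H : Hyp P)
    (hH : uu (wh pre suf α) H ≠ 0) :
    ∃ (η : U P) (a : List A) (r : P.rels) (c : List A), Pi p η (a ++ (r.1.1 ++ c)) ∧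
      H = hyp (wh pre suf η) ⟨pre ++ a, r, c ++ suf⟩ := by
  have := vis pre suf h 1 H (by rw [one_mul]; exact sub_ne_zero.1 hH)
  simpa using this

/-- hyperplanes of left elements are fixed by right elements -/
theorem fix_left {p s : List A} {α β : U P} {p' s' : List A} (hα : Pi p α p') (hβ : Pi s β s)
    {H : Hyp P} (hH : uu (wh [] s α) H ≠ 0) (_ : s' = s) : wh p [] β • H = H := by
  obtain ⟨η, a, r, c, h1, h2⟩ := vis0 [] s hα H hH
  rw [h2, smul_hyp, hyp_eq]
  apply Par.symm
  refine ⟨rfl, (wh [] s η)⁻¹ * (wh p [] β * wh [] s η), ?_, ?_⟩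
  · refine ⟨1, wh c [] β, Pi.refl _, ?_, ?_⟩
    · have := hβ.wh c []; simpa using this
    · have h3 := interchange h1 hβ
      rw [← h3, map_one, one_mul, wh_wh]
      simp
  · group

theorem fix_right {p s : List A} {α β : U P} {s' : List A} (hα : Pi p α p) (hβ : Pi s β s')
    {H : Hyp P} (hH : uu (wh p [] β) H ≠ 0) : wh [] s α • H = H := by
  obtain ⟨η, a, r, c, h1, h2⟩ := vis0 p [] hβ H hH
  rw [h2, smul_hyp, hyp_eq]
  apply Par.symm
  refine ⟨rfl, (wh p [] η)⁻¹ * (wh [] s α * wh p [] η), ?_, ?_⟩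
  · refine ⟨wh [] a α, 1, ?_, Pi.refl _, ?_⟩
    · have := hα.wh [] a; simpa using this
    · have h3 := interchange hα h1
      rw [h3, map_one, mul_one, wh_wh]
      simp
  · group

/-- **Finitely many types** -/
theorem types (w : List A) (h : FinPres (Dg P w)) :
    ∃ F : Set (Hyp P × Hyp P), F.Finite ∧ ∀ (γ : U P) (p s : List A) (α β : U P),
      Pi w γ (p ++ s) → Pi p α p → Pi s β s → ∀ H K : Hyp P,
      os (wh [] s α) (qo _ H) ≠ 0 → os (wh p [] β) (qo _ K) ≠ 0 →
      ∃ k : Dg P w, (k.1 • γ • H, k.1 • γ • K) ∈ F := by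
  obtain ⟨F, hF, h⟩ := cup_base w h
  refine ⟨F, hF, ?_⟩
  intro γ p s α β hγ hα hβ H K hH hK
  set x := wh [] s α with hx
  set y := wh p [] β with hy
  have hxW : Pi (p ++ s) x (p ++ s) := by simpa using hα.wh [] s
  have hyW : Pi (p ++ s) y (p ++ s) := by simpa using hβ.wh p []
  have hxy : x * y = y * x := interchange hα hβ
  obtain ⟨η, f1, f2, h1, h2⟩ := h γ x y (p ++ s) hγ hxW hyW hxy
  obtain ⟨z, hz1, hz2, hz3, hz4, hz5⟩ := theta hxy (uu x) (uu y)
    (fun H hH => fix_left hα hβ hH rfl) (fun H hH => fix_right hα hβ hH)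
    (fun H hH h3 => hH (uu_fix hxW h3)) η f1 f2 h2 H K hH hK
  obtain ⟨k, hk⟩ := h1 z hz1
  -- move back to the given pair
  obtain ⟨⟨ξ, hξ⟩, hξ1⟩ := Quotient.exact hz4
  obtain ⟨⟨ζ, hζ⟩, hζ1⟩ := Quotient.exact hz5
  have hξ2 : ξ • H = z.1 := hξ1
  have hζ2 : ζ • K = z.2 := hζ1
  have hC : ∀ (a b : U P), a ∈ Subgroup.zpowers x → b ∈ Subgroup.zpowers y → a * b = b * a := by
    rintro _ _ ⟨i, rfl⟩ ⟨j, rfl⟩
    exact ((show Commute x y from hxy).zpow_zpow i j)
  have hξW : Pi (p ++ s) ξ (p ++ s) := by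
    obtain ⟨i, rfl⟩ := hξ
    exact (Dg P (p ++ s)).zpow_mem (x := x) hxW i
  have hζW : Pi (p ++ s) ζ (p ++ s) := by
    obtain ⟨i, rfl⟩ := hζ
    exact (Dg P (p ++ s)).zpow_mem (x := y) hyW i
  have hfix1 : ζ • z.1 = z.1 := by
    have : y ∈ MulAction.stabilizer (U P) z.1 := hz2
    exact (Subgroup.zpowers_le.2 this) hζ
  have hfix2 : ξ • z.2 = z.2 := by
    have : x ∈ MulAction.stabilizer (U P) z.2 := hz3
    exact (Subgroup.zpowers_le.2 this) hξ
  have hcc : ξ * ζ = ζ * ξ := hC ξ ζ hξ hζ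
  have e1 : (ξ * ζ) • H = z.1 := by
    have h5 : ξ • ζ • H = ξ • H := by
      rw [smul_smul, hcc, ← smul_smul, hξ2, hfix1]
    rw [← smul_smul, h5, hξ2]
  have e2 : (ξ * ζ) • K = z.2 := by
    rw [← smul_smul, hζ2, hfix2]
  refine ⟨k * ⟨γ * (ξ * ζ) * γ⁻¹, (hγ.trans (hξW.trans hζW)).trans hγ.symm⟩, ?_⟩
  have e3 : ∀ Z : Hyp P, (k * ⟨γ * (ξ * ζ) * γ⁻¹, (hγ.trans (hξW.trans hζW)).trans hγ.symm⟩ :
      Dg P w).1 • γ • Z = k.1 • γ • (ξ * ζ) • Z := by
    intro Z
    simp only [Subgroup.coe_mul, smul_smul]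
    congr 1
    group
  rw [e3, e3, e1, e2]
  exact hk

end

end Pool.Agent.H599R3.SV
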