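import Pool.Agent.H599R3.SV.The

/-!
# Long decompositions give idempotents
-/

set_option autoImplicit false

namespace Pool.Agent.H599R3.SV

open H540DG Pool.Agent.H599R3.RH

/-! ### Ramsey triangles -/

theorem ramsey {κ : Type} (k : ℕ) : ∃ N : ℕ, ∀ (C : Finset κ), C.card ≤ k →
    ∀ (S : Finset ℕ) (col : ℕ → ℕ → κ), N ≤ S.card →
    (∀ i ∈ S, ∀ j ∈ S, i < j → col i j ∈ C) →
    ∃ i ∈ S, ∃ j ∈ S, ∃ l ∈ S, i < j ∧ j < l ∧ col i j = col i l ∧ col j l = col i l := by
  classical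
  induction k with
  | zero =>
    refine ⟨2, ?_⟩
    intro C hC S col hS h
    have hC0 : C = ∅ := Finset.card_eq_zero.1 (by omega)
    obtain ⟨a, ha, b, hb, hab⟩ := Finset.one_lt_card.1 (show 1 < S.card by omega)
    exfalso
    rcases lt_or_gt_of_ne hab with h1 | h1
    · have := h a ha b hb h1
      rw [hC0] at this
      simp at this
    · have := h b hb a ha h1
      rw [hC0] at this
      simp at this
  | succ k ih =>
    obtain ⟨N, hN⟩ := ih
    refine ⟨(k + 1) * (N + 1) + 1, ?_⟩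
    intro C hC S col hS h
    have hne : S.Nonempty := Finset.card_pos.1 (by omega)
    set i0 := S.min' hne with hi0
    have hi0S : i0 ∈ S := Finset.min'_mem S hne
    have hlt : ∀ j ∈ S.erase i0, i0 < j := by
      intro j hj
      exact Finset.min'_lt_of_mem_erase_min' S hne hj
    have hcard : (k + 1) * (N + 1) ≤ (S.erase i0).card := by
      rw [Finset.card_erase_of_mem hi0S]; omega
    have hmap : ∀ j ∈ S.erase i0, col i0 j ∈ C := fun j hj =>
      h i0 hi0S j (Finset.mem_of_mem_erase hj) (hlt j hj)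
    have hS'ne : (S.erase i0).Nonempty := Finset.card_pos.1 (by
      have : 0 < (k + 1) * (N + 1) := by positivity
      omega)
    obtain ⟨j0, hj0⟩ := hS'ne
    obtain ⟨c, hc, hcc⟩ := Finset.exists_le_card_fiber_of_mul_le_card_of_maps_to hmap
      ⟨_, hmap j0 hj0⟩ (show C.card * (N + 1) ≤ (S.erase i0).card from
        (Nat.mul_le_mul_right _ hC).trans hcard)
    set T := (S.erase i0).filter (fun j => col i0 j = c) with hT
    have hTS : ∀ j ∈ T, j ∈ S ∧ i0 < j ∧ col i0 j = c := by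
      intro j hj
      rw [hT, Finset.mem_filter] at hj
      exact ⟨Finset.mem_of_mem_erase hj.1, hlt j hj.1, hj.2⟩
    by_cases hex : ∃ j ∈ T, ∃ l ∈ T, j < l ∧ col j l = c
    · obtain ⟨j, hj, l, hl, h1, h2⟩ := hex
      obtain ⟨a1, a2, a3⟩ := hTS j hj
      obtain ⟨b1, b2, b3⟩ := hTS l hl
      exact ⟨i0, hi0S, j, a1, l, b1, a2, h1, by rw [a3, b3], by rw [h2, b3]⟩
    · push Not at hex
      obtain ⟨i, hi, j, hj, l, hl, h1⟩ := hN (C.erase c) (by
        rw [Finset.card_erase_of_mem hc]; omega) T col (by omega) (by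
        intro i hi j hj hij
        exact Finset.mem_erase.2 ⟨hex i hi j hj hij, h i (hTS i hi).1 j (hTS j hj).1 hij⟩)
      exact ⟨i, (hTS i hi).1, j, (hTS j hj).1, l, (hTS l hl).1, h1⟩

section

variable {A : Type} {P : Pres A}

/-- simultaneously visible pairs -/
def Vs (w : List A) (g : U P) (H K : Hyp P) (y : List A) : Prop :=
  ∃ (x z : List A) (r s : P.rels), Pi w g (x ++ (r.1.1 ++ (y ++ (s.1.1 ++ z)))) ∧
    H = hyp g ⟨x, r, y ++ (s.1.1 ++ z)⟩ ∧ K = hyp g ⟨x ++ (r.1.1 ++ y), s, z⟩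

theorem inv_mid {w : List A} {g g' : U P} {H K : Hyp P} {y y' : List A} (h : Vs w g H K y)
    (h' : Vs w g' H K y') : ∃ β : U P, Pi y β y' := by
  obtain ⟨x, z, r, s, h1, h2, h3⟩ := h
  obtain ⟨x', z', r', s', h1', h2', h3'⟩ := h'
  obtain ⟨e1, k, k1, k2⟩ := hyp_eq.1 (h2.symm.trans h2')
  obtain ⟨e2, k', k1', k2'⟩ := hyp_eq.1 (h3.symm.trans h3')
  simp only at e1 e2 k1 k2 k1' k2'
  subst e1 e2
  have hkk : k = k' := by
    rw [k2] at k2'
    exact mul_left_cancel k2'
  subst hkk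
  have hk : Pi (x ++ (r.1.1 ++ (y ++ (s.1.1 ++ z)))) k (x' ++ (r.1.1 ++ (y' ++ (s.1.1 ++ z')))) :=
    k1.pi
  obtain ⟨L, f1, f2, f3⟩ := min_path hk g
  obtain ⟨x1, y1, z1, g1, g2, g3, g4⟩ := dec3 L g x r.1.1 y s.1.1 z _ f1 (by
    intro J hJ
    have hc := cr_mem J g L f3 hJ
    rw [f2] at hc
    have c1 := cross_Mv J k1 g hc
    have c2 := cross_Mv J k1' g hc
    simp only [List.length_append] at c1 c2
    push_cast at c1 c2
    rw [← add_assoc] at c2
    rcases c1 with c1 | c1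
    · exact Or.inl c1
    · rcases c2 with c2 | c2
      · exact Or.inr (Or.inl ⟨c1, c2⟩)
      · exact Or.inr (Or.inr c2))
  rw [f2, ← k2] at g3 g4
  have l1 := congrArg Hyp.lo (h2.symm.trans h2')
  have l2 := congrArg Hyp.lo (h3.symm.trans h3')
  rw [lo_hyp, lo_hyp] at l1 l2
  simp only [List.length_append] at l1 l2
  push_cast at l1 l2
  rw [← add_assoc, ← add_assoc] at l2
  rw [l1] at g3
  rw [l2] at g4
  have m1 := (th g').injective g3
  have m2 := (th g').injective g4
  have n1 : x'.length = x1.length := by exact_mod_cast m1.symm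
  have n2 : y'.length = y1.length := by
    rw [m1] at m2
    have : (y'.length : ℚ) = y1.length := by linarith
    exact_mod_cast this
  obtain ⟨p1, p2⟩ := List.append_inj g1 n1
  have p3 := List.append_cancel_left p2
  obtain ⟨p4, -⟩ := List.append_inj p3 n2
  rw [p4]
  exact g2

theorem vis_pair {w X Y M Z S a c a' c' : List A} {r r' : P.rels} {γ η ζ k : U P}
    (hγ : Pi w γ (X ++ (Y ++ (M ++ (Z ++ S))))) (hη : Pi Y η (a ++ (r.1.1 ++ c)))
    (hζ : Pi Z ζ (a' ++ (r'.1.1 ++ c'))) (hk : Pi w k w) :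
    ∃ g, Vs w g (k • γ • hyp (wh X (M ++ (Z ++ S)) η) ⟨X ++ a, r, c ++ (M ++ (Z ++ S))⟩)
      (k • γ • hyp (wh (X ++ (Y ++ M)) S ζ) ⟨(X ++ (Y ++ M)) ++ a', r', c' ++ S⟩)
      (c ++ (M ++ a')) := by
  refine ⟨k * (γ * (wh X (M ++ (Z ++ S)) η * wh (X ++ ((a ++ (r.1.1 ++ c)) ++ M)) S ζ)),
    X ++ a, c' ++ S, r, r', ?_, ?_, ?_⟩
  · have h1 := hη.wh X (M ++ (Z ++ S))
    have h2 := hζ.wh (X ++ ((a ++ (r.1.1 ++ c)) ++ M)) S
    simp only [List.append_assoc] at h1 h2 ⊢
    exact hk.trans (hγ.trans (h1.trans h2))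
  · rw [smul_hyp, smul_hyp, hyp_eq]
    refine ⟨rfl, wh (X ++ ((a ++ (r.1.1 ++ c)) ++ M)) S ζ, ⟨1, wh (c ++ M) S ζ, Pi.refl _, ?_, ?_⟩,
      ?_⟩
    · have := hζ.wh (c ++ M) S
      simp only [List.append_assoc] at this ⊢
      exact this
    · rw [map_one, one_mul, wh_wh]
      simp
    · simp only [mul_assoc]
  · rw [smul_hyp, smul_hyp, hyp_eq]
    refine ⟨rfl, wh X (M ++ (a' ++ (r'.1.1 ++ (c' ++ S)))) η,
      ⟨wh X (M ++ a') η, 1, ?_, Pi.refl _, ?_⟩, ?_⟩
    · have := hη.wh X (M ++ a')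
      simp only [List.append_assoc] at this ⊢
      exact this
    · rw [map_one, mul_one, wh_wh]
      simp
    · have h1 : Pi (X ++ (Y ++ M)) (wh X M η) (X ++ ((a ++ (r.1.1 ++ c)) ++ M)) := hη.wh X M
      have h2 : Pi (Z ++ S) (wh [] S ζ) ((a' ++ (r'.1.1 ++ c')) ++ S) := by
        simpa using hζ.wh [] S
      have h3 := interchange h1 h2
      simp only [wh_wh, List.nil_append, List.append_nil] at h3
      rw [h3]
      simp only [mul_assoc, List.append_assoc]

theorem blocks (ps : List (List A)) : ∃ pre p suf : ℕ → List A,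
    (∀ i < ps.length, p i ∈ ps ∧ ps.flatten = pre i ++ (p i ++ suf i)) ∧
    (∀ i j, i < j → j < ps.length → ∃ mid, pre j = pre i ++ (p i ++ mid) ∧
      suf i = mid ++ (p j ++ suf j)) := by
  induction ps with
  | nil => exact ⟨fun _ => [], fun _ => [], fun _ => [], by simp, by simp⟩
  | cons q ps ih =>
    obtain ⟨pre, p, suf, h1, h2⟩ := ih
    refine ⟨fun i => Nat.casesOn i [] (fun i => q ++ pre i), fun i => Nat.casesOn i q p,
      fun i => Nat.casesOn i ps.flatten suf, ?_, ?_⟩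
    · intro i hi
      cases i with
      | zero => exact ⟨by simp, by simp⟩
      | succ i =>
        obtain ⟨h3, h4⟩ := h1 i (by simpa using hi)
        refine ⟨List.mem_cons_of_mem _ h3, ?_⟩
        simp only [List.flatten_cons, List.append_assoc]
        rw [h4]
    · intro i j hij hj
      cases j with
      | zero => omega
      | succ j =>
        have hj' : j < ps.length := by simpa using hj
        cases i with
        | zero => exact ⟨pre j, by simp, (h1 j hj').2⟩
        | succ i =>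
          obtain ⟨mid, h3, h4⟩ := h2 i j (by omega) hj'
          refine ⟨mid, ?_, h4⟩
          simp only [List.append_assoc]
          rw [h3]

/-- **Long decompositions give idempotents.** -/
theorem bounded (w : List A) (hfp : FinPres (Dg P w))
    (hno : ∀ (e B C : List A) (ε g : U P), e ≠ [] → Pi e ε (e ++ e) →
      Pi w g (B ++ (e ++ C)) → False) :
    ∃ N : ℕ, ∀ (ps : List (List A)) (γ : U P), (∀ p ∈ ps, ¬ Tr P p) → Pi w γ ps.flatten →
      ps.length ≤ N := by
  classical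
  obtain ⟨F, hF, ht⟩ := types w hfp
  obtain ⟨N, hN⟩ := ramsey (κ := Hyp P × Hyp P) hF.toFinset.card
  refine ⟨N, ?_⟩
  intro ps γ hps hγ
  by_contra hcon
  push Not at hcon
  obtain ⟨pre, p, suf, hb1, hb2⟩ := blocks ps
  have hdat : ∀ i, i < ps.length → ∃ (α η : U P) (a c : List A) (r : P.rels),
      Pi (p i) η (a ++ (r.1.1 ++ c)) ∧ Pi (p i) α (p i) ∧
      os (wh (pre i) (suf i) α) (qo _ (hyp (wh (pre i) (suf i) η)
        ⟨pre i ++ a, r, c ++ suf i⟩)) ≠ 0 := by
    intro i hi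
    have hnt := hps _ (hb1 i hi).1
    unfold Tr at hnt
    push Not at hnt
    obtain ⟨α, hα, hα1⟩ := hnt
    have hx := hα.wh (pre i) (suf i)
    have hx1 : wh (pre i) (suf i) α ≠ 1 := by
      intro h
      apply hα1
      apply wh_right_inj (suf i) hα
      have h2 : Pi (p i ++ suf i) (wh [] (suf i) α) (p i ++ suf i) := by
        simpa using hα.wh [] (suf i)
      apply wh_left_inj (pre i) h2
      rw [wh_wh]
      simpa using h
    obtain ⟨H, h1, h2⟩ := exists_os hx hx1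
    obtain ⟨η, a, r, c, h3, h4⟩ := vis0 _ _ hα H h2
    exact ⟨α, η, a, c, r, h3, hα, by rw [← h4]; exact h1⟩
  obtain ⟨-, -, -, -, r0, -⟩ := hdat 0 (by omega)
  have hrn : Nonempty P.rels := ⟨r0⟩
  choose! α η a c r h1 h2 h3 using hdat
  set HH : ℕ → Hyp P := fun i => hyp (wh (pre i) (suf i) (η i)) ⟨pre i ++ a i, r i, c i ++ suf i⟩
    with hHH
  have hkey : ∀ i j, i < j → j < ps.length → ∃ k : Dg P w,
      (k.1 • γ • HH i, k.1 • γ • HH j) ∈ F := by
    intro i j hij hj
    obtain ⟨mid, m1, m2⟩ := hb2 i j hij hj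
    have hi : i < ps.length := hij.trans hj
    apply ht γ (pre j) (p j ++ suf j) (wh (pre i) mid (α i)) (wh [] (suf j) (α j))
    · rw [(hb1 j hj).2] at hγ
      exact hγ
    · have := (h2 i hi).wh (pre i) mid
      rw [m1]
      exact this
    · simpa using (h2 j hj).wh [] (suf j)
    · have e1 : wh (P := P) [] (p j ++ suf j) (wh (pre i) mid (α i)) =
          wh (pre i) (suf i) (α i) := by
        rw [wh_wh, m2]; simp
      rw [e1]
      exact h3 i hi
    · have e1 : wh (P := P) (pre j) [] (wh [] (suf j) (α j)) = wh (pre j) (suf j) (α j) := by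
        rw [wh_wh]; simp
      rw [e1]
      exact h3 j hj
  let col : ℕ → ℕ → Hyp P × Hyp P := fun i j =>
    if h : i < j ∧ j < ps.length then
      ((Classical.choose (hkey i j h.1 h.2)).1 • γ • HH i,
        (Classical.choose (hkey i j h.1 h.2)).1 • γ • HH j)
    else (HH i, HH j)
  have hcol : ∀ i j, i < j → j < ps.length → ∃ k : Dg P w,
      col i j = (k.1 • γ • HH i, k.1 • γ • HH j) ∧ col i j ∈ F := by
    intro i j hij hj
    refine ⟨Classical.choose (hkey i j hij hj), ?_, ?_⟩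
    · simp only [col]
      rw [dif_pos ⟨hij, hj⟩]
    · simp only [col]
      rw [dif_pos ⟨hij, hj⟩]
      exact Classical.choose_spec (hkey i j hij hj)
  obtain ⟨i, hi, j, hj, l, hl, hij, hjl, hc1, hc2⟩ := hN hF.toFinset le_rfl
    (Finset.range ps.length) col (by rw [Finset.card_range]; omega) (by
      intro i _ j hj hij
      obtain ⟨k, -, hk⟩ := hcol i j hij (Finset.mem_range.1 hj)
      exact hF.mem_toFinset.2 hk)
  rw [Finset.mem_range] at hi hj hl
  -- middle words
  have hvs : ∀ i j, i < j → j < ps.length → ∀ mid, pre j = pre i ++ (p i ++ mid) →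
      suf i = mid ++ (p j ++ suf j) →
      (∃ g, Vs w g (col i j).1 (col i j).2 (c i ++ (mid ++ a j))) ∧
      rty (col i j).1 = r i ∧ rty (col i j).2 = r j := by
    intro i j hij hj mid m1 m2
    obtain ⟨k, hk, -⟩ := hcol i j hij hj
    have hi : i < ps.length := hij.trans hj
    rw [hk]
    refine ⟨?_, ?_, ?_⟩
    · have hγ' : Pi w γ (pre i ++ (p i ++ (mid ++ (p j ++ suf j)))) := by
        rw [(hb1 i hi).2, m2] at hγ
        exact hγ
      have := vis_pair hγ' (h1 i hi) (h1 j hj) k.2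
      simp only [hHH]
      rw [m2, m1]
      exact this
    · simp only [rty_smul, hHH, rty_hyp]
    · simp only [rty_smul, hHH, rty_hyp]
  obtain ⟨m, m1, m2⟩ := hb2 i j hij hj
  obtain ⟨m', m1', m2'⟩ := hb2 j l hjl hl
  have m3 : pre l = pre i ++ (p i ++ (m ++ (p j ++ m'))) := by
    rw [m1', m1]; simp
  have m4 : suf i = (m ++ (p j ++ m')) ++ (p l ++ suf l) := by
    rw [m2, m2']; simp
  obtain ⟨⟨g1, v1⟩, r1, r1'⟩ := hvs i j hij hj m m1 m2
  obtain ⟨⟨g2, v2⟩, r2, r2'⟩ := hvs j l hjl hl m' m1' m2'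
  obtain ⟨⟨g3, v3⟩, r3, r3'⟩ := hvs i l (hij.trans hjl) hl _ m3 m4
  rw [hc1] at v1 r1 r1'
  rw [hc2] at v2 r2 r2'
  obtain ⟨β2, hβ2⟩ := inv_mid v2 v1
  obtain ⟨β3, hβ3⟩ := inv_mid v1 v3
  set y := c i ++ (m ++ a j) with hy
  have hstep : Pi (c i ++ ((m ++ (p j ++ m')) ++ a l)) (wh (c i ++ m) (m' ++ a l) (η j))
      (y ++ ((r j).1.1 ++ (c j ++ (m' ++ a l)))) := by
    have := (h1 j hj).wh (c i ++ m) (m' ++ a l)
    rw [hy]
    simp only [List.append_assoc] at this ⊢
    exact this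
  have hstep2 := hβ2.wh (y ++ (r j).1.1) []
  simp only [List.append_nil, List.append_assoc] at hstep2
  have hε := (hβ3.trans (hstep.trans hstep2)).wh [] (r j).1.1
  simp only [List.nil_append] at hε
  obtain ⟨x, z, r4, s4, d1, d2, d3⟩ := v1
  have hs4 : s4 = r j := by
    rw [← r1', d3, rty_hyp]
  rw [hs4] at d1
  have hne : y ++ (r j).1.1 ≠ [] := by
    intro h
    have := (P.ne _ (r j).2).1
    rw [List.append_eq_nil_iff] at h
    exact this h.2
  have d1' : Pi w g1 ((x ++ r4.1.1) ++ ((y ++ (r j).1.1) ++ z)) := by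
    simp only [List.append_assoc] at d1 ⊢
    exact d1
  have e1 : y ++ ((r j).1.1 ++ y) ++ (r j).1.1 = (y ++ (r j).1.1) ++ (y ++ (r j).1.1) := by
    simp only [List.append_assoc]
  rw [e1] at hε
  exact hno _ _ _ _ _ hne hε d1'

end

end Pool.Agent.H599R3.SV
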